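import Mathlib

/-!
# Bases adapted to a chain of subspaces and to a subspace
-/

set_option autoImplicit false

open Module

namespace Pool.Agent.Helper50.Quad

section adapt

variable {k₀ V : Type*} [Field k₀] [AddCommGroup V] [Module k₀ V]

lemma basis_update {ι : Type*} [DecidableEq ι] [Fintype ι] (b : Basis ι k₀ V) (i : ι) (v : V)
    (hv : b.repr v i ≠ 0) : ∃ b' : Basis ι k₀ V, ⇑b' = Function.update b i v := by
  have hfd : FiniteDimensional k₀ V := Module.Finite.of_basis b
  have h1 : LinearIndependent k₀ (Function.update b i v) :=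
    b.linearIndependent.update i v ⟨1, one_mem _, b.repr v, mem_nonZeroDivisors_of_ne_zero hv, by
      rw [one_smul, Basis.linearCombination_repr]⟩
  refine ⟨basisOfLinearIndependentOfCardEqFinrank' _ h1 (Module.finrank_eq_card_basis b).symm,
    coe_basisOfLinearIndependentOfCardEqFinrank' _ _ _⟩

/-- The properties of divisibility with respect to a totally ordered set of divisors. -/
structure Dv (k₀ : Type*) {V : Type*} [Field k₀] [AddCommGroup V] [Module k₀ V]
    (dv : V → V → Prop) : Prop where
  refl : ∀ v, dv v v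
  trans : ∀ u v w, dv u v → dv v w → dv u w
  zero : ∀ v, dv v 0
  add : ∀ u v w, dv u v → dv u w → dv u (v + w)
  smul : ∀ (c : k₀) u v, dv u v → dv u (c • v)
  total : ∀ u v, dv u v ∨ dv v u

variable {dv : V → V → Prop}

lemma Dv.sum (h : Dv k₀ dv) {ι : Type*} (S : Finset ι) (u : V) (f : ι → V)
    (hf : ∀ i ∈ S, dv u (f i)) : dv u (∑ i ∈ S, f i) := by
  classical
  induction S using Finset.induction_on with
  | empty => rw [Finset.sum_empty]; exact h.zero u
  | insert i S hi ih =>
    rw [Finset.sum_insert hi]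
    exact h.add _ _ _ (hf i (Finset.mem_insert_self i S))
      (ih fun j hj => hf j (Finset.mem_insert_of_mem hj))

/-- The level of a vector. -/
noncomputable def lev (dv : V → V → Prop) (v : V) : ℕ := Nat.card {u : V // dv u v}

lemma lev_lt [Finite V] (h : Dv k₀ dv) {u v : V} (hn : ¬ dv v u) : lev dv u < lev dv v := by
  have h1 : dv u v := (h.total u v).resolve_right hn
  have h2 : {w | dv w u} ⊂ {w | dv w v} := by
    refine ⟨fun w hw => h.trans _ _ _ hw h1, fun h3 => hn (h3 (h.refl v))⟩
  have h3 := Set.ncard_lt_ncard h2 (Set.toFinite _)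
  exact h3

/-- Adapted bases. -/
theorem exists_adapted' [Finite V] [FiniteDimensional k₀ V] (h : Dv k₀ dv) (W : Submodule k₀ V) :
    ∃ (a c : ℕ) (b : Basis (Fin a ⊕ Fin c) k₀ V), (∀ i, b (Sum.inl i) ∈ W) ∧
      (∀ w ∈ W, ∀ j, b.repr w (Sum.inr j) = 0) ∧ ∀ v i, b.repr v i ≠ 0 → dv v (b i) := by
  classical
  obtain ⟨W', hW'⟩ := Submodule.exists_isCompl W
  let a := Module.finrank k₀ W
  let c := Module.finrank k₀ W'
  let b0 : Basis (Fin a ⊕ Fin c) k₀ V := ((Module.finBasis k₀ W).prod (Module.finBasis k₀ W')).map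
    (Submodule.prodEquivOfIsCompl W W' hW')
  let S : Set (Basis (Fin a ⊕ Fin c) k₀ V) := {b | ∀ i, b (Sum.inl i) ∈ W}
  have hb0 : b0 ∈ S := by
    intro i
    have h1 : b0 (Sum.inl i) = (Module.finBasis k₀ W i : V) := by
      simp [b0]
    rw [h1]
    exact Submodule.coe_mem _
  have hfin : Finite (Basis (Fin a ⊕ Fin c) k₀ V) :=
    Finite.of_injective (fun b => (b : Fin a ⊕ Fin c → V)) DFunLike.coe_injective
  obtain ⟨b, hb, hmax⟩ := Set.exists_max_image S (fun b => ∑ i, lev dv (b i)) (Set.toFinite S)
    ⟨b0, hb0⟩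
  have hup : ∀ (v : V) i, b.repr v i ≠ 0 → (∀ i', i = Sum.inl i' → v ∈ W) → dv v (b i) := by
    intro v i hv hW
    by_contra hn
    have h1 := lev_lt h hn
    obtain ⟨b', hb'⟩ := basis_update b i v hv
    have h2 : b' ∈ S := by
      intro i'
      rw [hb']
      by_cases hi : Sum.inl i' = i
      · rw [hi, Function.update_self]
        exact hW i' hi.symm
      · rw [Function.update_of_ne hi]
        exact hb i'
    have h3 := hmax b' h2
    have h4 : ∑ j, lev dv (b j) < ∑ j, lev dv (b' j) := by
      refine Finset.sum_lt_sum (fun j _ => ?_) ⟨i, Finset.mem_univ _, ?_⟩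
      · rw [hb']
        by_cases hj : j = i
        · rw [hj, Function.update_self]
          exact h1.le
        · rw [Function.update_of_ne hj]
      · rw [hb', Function.update_self]
        exact h1
    exact absurd h3 (not_le.2 h4)
  have hW0 : ∀ w ∈ W, ∀ j, b.repr w (Sum.inr j) = 0 := by
    intro w hw j
    have hli : LinearIndependent k₀ (fun i : Fin a => (⟨b (Sum.inl i), hb i⟩ : W)) := by
      have h1 : LinearIndependent k₀ (fun i : Fin a => b (Sum.inl i)) :=
        b.linearIndependent.comp Sum.inl Sum.inl_injective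
      exact LinearIndependent.of_comp W.subtype h1
    let bW : Basis (Fin a) k₀ W := basisOfLinearIndependentOfCardEqFinrank' _ hli (by
      rw [Fintype.card_fin])
    have h2 : w = ∑ i, bW.repr ⟨w, hw⟩ i • b (Sum.inl i) := by
      have h3 := congrArg (W.subtype) (bW.sum_repr ⟨w, hw⟩)
      rw [map_sum] at h3
      have h4 : W.subtype ⟨w, hw⟩ = w := rfl
      rw [h4] at h3
      conv_lhs => rw [← h3]
      refine Finset.sum_congr rfl fun i _ => ?_
      rw [map_smul, coe_basisOfLinearIndependentOfCardEqFinrank']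
      rfl
    rw [h2, map_sum, Finsupp.finsetSum_apply]
    refine Finset.sum_eq_zero fun i _ => ?_
    rw [map_smul, Basis.repr_self, Finsupp.smul_apply, Finsupp.single_eq_of_ne (by simp),
      smul_zero]
  refine ⟨a, c, b, hb, hW0, ?_⟩
  intro v i hvi
  rcases i with i | j
  · -- the component in `W`
    let w : V := ∑ i', b.repr v (Sum.inl i') • b (Sum.inl i')
    let w' : V := ∑ j, b.repr v (Sum.inr j) • b (Sum.inr j)
    have hvw : v = w + w' := by
      have h1 := b.sum_repr v
      rw [Fintype.sum_sum_type] at h1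
      exact h1.symm
    have hwW : w ∈ W := W.sum_mem fun i' _ => W.smul_mem _ (hb i')
    have h1 : dv v w' := by
      refine h.sum _ _ _ fun j _ => ?_
      by_cases h2 : b.repr v (Sum.inr j) = 0
      · rw [h2, zero_smul]
        exact h.zero v
      · exact h.smul _ _ _ (hup v _ h2 (by simp))
    have h2 : dv v w := by
      have h3 : w = v + (-1 : k₀) • w' := by
        rw [hvw, neg_one_smul]
        abel
      rw [h3]
      exact h.add _ _ _ (h.refl v) (h.smul _ _ _ h1)
    have h3 : b.repr w (Sum.inl i) = b.repr v (Sum.inl i) := by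
      have h4 : b.repr w' (Sum.inl i) = 0 := by
        change b.repr (∑ j, _) _ = 0
        rw [map_sum, Finsupp.finsetSum_apply]
        refine Finset.sum_eq_zero fun j _ => ?_
        rw [map_smul, Basis.repr_self, Finsupp.smul_apply, Finsupp.single_eq_of_ne (by simp),
          smul_zero]
      conv_rhs => rw [hvw]
      rw [map_add, Finsupp.add_apply, h4, add_zero]
    exact h.trans _ _ _ h2 (hup w _ (by rw [h3]; exact hvi) fun _ _ => hwW)
  · exact hup v _ hvi (by simp)

/-- Adapted bases. -/
theorem exists_adapted [Finite V] [FiniteDimensional k₀ V] (h : Dv k₀ dv) (W : Submodule k₀ V) :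
    ∃ (q : ℕ) (b : Basis (Fin q) k₀ V) (P : Fin q → Prop), (∀ i, P i → b i ∈ W) ∧
      (∀ w ∈ W, ∀ i, ¬ P i → b.repr w i = 0) ∧ ∀ v i, b.repr v i ≠ 0 → dv v (b i) := by
  obtain ⟨a, c, b, h1, h2, h3⟩ := exists_adapted' h W
  refine ⟨a + c, b.reindex finSumFinEquiv, fun i => (finSumFinEquiv.symm i).isLeft = true,
    ?_, ?_, ?_⟩
  · intro i hi
    rw [Basis.reindex_apply]
    have hi' : (finSumFinEquiv.symm i).isLeft = true := hi
    rcases hj : finSumFinEquiv.symm i with j | j
    · exact h1 j
    · rw [hj] at hi'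
      simp at hi'
  · intro w hw i hi
    rw [Basis.repr_reindex_apply]
    rcases hj : finSumFinEquiv.symm i with j | j
    · have hi' : (finSumFinEquiv.symm i).isLeft = true := by rw [hj]; rfl
      exact absurd hi' hi
    · exact h2 w hw j
  · intro v i hi
    rw [Basis.repr_reindex_apply] at hi
    rw [Basis.reindex_apply]
    exact h3 v _ hi

end adapt

end Pool.Agent.Helper50.Quad
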