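import Pool.Agent.Helper50.Quad.Block

/-!
# Joint normal forms on the base
-/

set_option autoImplicit false
set_option linter.unusedVariables false
set_option linter.unusedSectionVars false

universe u

open Finsupp Module Pool.Agent.W558 Pool.Agent.TH214 Pool.Agent.TH214.V Pool.Agent.TH214.SD
  Pool.Agent.Helper50.Add Pool.Agent.TH188.WP Pool.Agent.TH188.WQ Pool.Agent.TH188.VT
  Pool.Agent.TH188.VQ Pool.Agent.W558.WT AlgebraicGeometry CategoryTheory

namespace Pool.Agent.Helper50.Quad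

section gen

variable {p : ℕ} [Fact p.Prime] {k K : Type u} [Field k] [PerfectField k] [CharP k p] [Field K]
  [Algebra k K] {m : ℕ} {E : Fin m → IntermediateField k K}

/-- The joint normal form on the base. -/
theorem sch_gm (hE : AreIndependentSurfaceFields E) {d0 : ℕ} (hd0 : Algebra.trdeg k (cps E) = d0)
    (J : Type) [Fintype J] (g : J → ∀ i, E i)
    (hg : ∀ i j j', j ≠ j' → (∃ b, b ^ p = g j i) ∨ ∃ b, b ^ p = g j' i)
    (hg0 : ∀ j i, g j i ≠ 0)
    {h : ℕ} (uu : Fin h → ∀ i, E i) (huu : ∀ b i, uu b i ≠ 0) (u : Fin h → K)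
    (hu : ∀ b, u b = ∏ i, (uu b i : K))
    {n : ℕ} (y : Fin n → K) (hy0 : ∀ j, y j ≠ 0) {d' c : ℕ} (ρ : Fin d' → Fin n)
    (hcd : c + d' = n) (hind : AlgebraicIndependent (cps E) (y ∘ ρ))
    (σ τ : Type) [Finite σ] [Fintype τ]
    (G : σ → (Fin h ⊕ Fin n → ℤ) →₀ k) (F : τ → (Fin h ⊕ Fin n → ℤ) →₀ k)
    (hG : ∀ s, lv (G s) (Sum.elim u y) = 0)
    (hND : NDV G F (fun j => j.isRight = true) (fun _ => True) c)
    {r : ℕ} (lam : Fin r → J → k) (S : Type) [Fintype S] (s : S → ∀ i, E i)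
    (hs : ∀ b i, s b i ≠ 0) :
    ∃ (J1 : Type) (_ : Fintype J1)
      (F1 : J1 → IntermediateField.adjoin (cps E) (Set.range y)) (lam1 : Fin r → J1 → k)
      (a0 : Fin r → IntermediateField.adjoin (cps E) (Set.range y))
      (Fτ : τ → IntermediateField.adjoin (cps E) (Set.range y))
      (g1 : S → IntermediateField.adjoin (cps E) (Set.range y))
      (y1 : Fin n → IntermediateField.adjoin (cps E) (Set.range y)),
      (∀ b, (g1 b : K) = ∏ i, (s b i : K)) ∧ (∀ j, (y1 j : K) = y j) ∧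
      (∀ t, (Fτ t : K) = lv (F t) (Sum.elim u y)) ∧
      (∀ j, ∑ t, lam j t • ∏ i, (g t i : K) =
        ∑ t, algebraMap k K (lam1 j t) * (F1 t : K) + (a0 j : K) ^ p) ∧
      GM p k (Sum.elim F1 Fτ) (Sum.elim g1 y1) := by
  classical
  have hp : p.Prime := Fact.out
  have hcK : CharP K p := charP_of_injective_algebraMap (algebraMap k K).injective p
  let L0 := cps E
  let sB : (Fin h ⊕ S) → ∀ i, E i := Sum.elim uu s
  have hsB : ∀ b i, sB b i ≠ 0 := by
    rintro (b | b) i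
    · exact huu b i
    · exact hs b i
  let g2 : Fin h ⊕ S → K := Sum.elim u fun b => ∏ i, (s b i : K)
  have hg2 : ∀ b, g2 b = ∏ i, (sB b i : K) := by
    rintro (b | b)
    · exact hu b
    · rfl
  obtain ⟨J1, hJ1, F1, lam1, a0, hGM0, hsum⟩ := Pool.Agent.TH214.U.gm_sums (p := p) hE J g hg hg0
    r lam (Fin h ⊕ S) sB hsB
  let ι2 : (Fin h ⊕ Fin n) ↪ (Fin h ⊕ S) ⊕ Fin n :=
    ⟨Sum.map Sum.inl id, Function.Injective.sumMap Sum.inl_injective Function.injective_id⟩
  have hright : ∀ j, (ι2 j).isRight = j.isRight := by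
    intro j
    rcases j with q | q <;> rfl
  have hz : (fun j => Sum.elim g2 y (ι2 j)) = Sum.elim u y := by
    funext j
    rcases j with q | q <;> rfl
  let K1 : IntermediateField L0 K := IntermediateField.adjoin L0 (Set.range y)
  have tL : IsScalarTower k L0 K1 := IsScalarTower.of_algebraMap_eq fun c => rfl
  have hcK1 : CharP K1 p := charP_of_injective_algebraMap (algebraMap k K1).injective p
  let y' : Fin n → K1 := fun j => ⟨y j, IntermediateField.subset_adjoin _ _ ⟨j, rfl⟩⟩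
  have hy' : ∀ j, y' j ≠ 0 := fun j h => hy0 j (congrArg Subtype.val h)
  have hgen1 : IntermediateField.adjoin L0 (Set.range y') = ⊤ := by
    apply IntermediateField.lift_injective K1
    rw [IntermediateField.lift_adjoin, IntermediateField.lift_top, ← Set.range_comp]
    rfl
  obtain ⟨b0, hb0⟩ := exists_dn (K0 := L0) hd0
  have hind' : AlgebraicIndependent L0 (y' ∘ ρ) :=
    (K1.val.algebraicIndependent_iff K1.val.injective).1 hind
  have hdn : ∃ b : Fin (d0 + d') → K1, AlgebraicIndependent k b := by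
    have hb1 : AlgebraicIndependent k (fun i => algebraMap L0 K1 (b0 i)) :=
      hb0.map' (f := IsScalarTower.toAlgHom k L0 K1) (algebraMap L0 K1).injective
    have h1 := hb1.sumElim_of_tower (S := L0) (y := y' ∘ ρ)
      (by rintro _ ⟨i, rfl⟩; exact ⟨b0 i, rfl⟩) hind'
    let ε : Fin (d0 + d') ≃ Fin d' ⊕ Fin d0 := finSumFinEquiv.symm.trans (Equiv.sumComm _ _)
    exact ⟨_, h1.comp ε ε.injective⟩
  let gL : Fin h ⊕ S → L0 := fun b => ∏ i, (⟨(sB b i : K), mem_cps E i (sB b i)⟩ : cps E)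
  have hgL : ∀ b, ((algebraMap L0 K1 (gL b) : K1) : K) = g2 b := by
    intro b
    rw [hg2 b]
    have h1 : ((algebraMap L0 K1 (gL b) : K1) : K) = L0.val (gL b) := rfl
    rw [h1]
    change L0.val (∏ i, _) = _
    rw [map_prod]
    rfl
  have hgyK : ∀ q, ((Sum.elim (fun b => (IsScalarTower.toAlgHom k L0 K1) (gL b)) y' q : K1) : K) =
      Sum.elim g2 y q := by
    rintro (b | j)
    · exact hgL b
    · rfl
  have hlvK : ∀ A : (Fin h ⊕ Fin n → ℤ) →₀ k, ((lv (exF ι2 A)
      (Sum.elim (fun b => (IsScalarTower.toAlgHom k L0 K1) (gL b)) y') : K1) : K) =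
        lv A (fun j => Sum.elim g2 y (ι2 j)) := by
    intro A
    have h1 : ∀ z : (Fin h ⊕ Fin n) → K1, ((lv A z : K1) : K) = lv A (fun j => (z j : K)) := by
      intro z
      change (K1.val.restrictScalars k) (lv A z) = _
      unfold lv
      rw [map_sum]
      refine Finset.sum_congr rfl fun q _ => ?_
      rw [map_smul, map_prod]
      refine congrArg _ ?_
      exact Finset.prod_congr rfl fun j _ => map_zpow₀ _ _ _
    rw [exF_lv, h1]
    congr 1
    funext j
    exact hgyK _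
  have hGM := gm_relative p (c := c) (d := d0 + d') hd0
    (j1' := IsScalarTower.toAlgHom k L0 K1) hy' (evm_gen hgen1) (by omega) hdn hGM0
    (fun s => exF ι2 (G s)) (fun t => exF ι2 (F t))
    (fun s => Subtype.ext ((hlvK (G s)).trans (by rw [hz]; exact hG s)))
    ((show NDV G F (fun j => (ι2 j).isRight = true) (fun _ => True) c by
      simp only [hright]
      exact hND).ext ι2 fun i h => h)
  have hgs : ∀ j, ((∑ t, algebraMap k L0 (lam j t) *
      ∏ i, (⟨(g t i : K), mem_cps E i (g t i)⟩ : L0) : L0) : K) =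
        ∑ t, lam j t • ∏ i, (g t i : K) := by
    intro j
    change L0.val (∑ t, algebraMap k L0 (lam j t) *
      ∏ i, (⟨(g t i : K), mem_cps E i (g t i)⟩ : L0)) = _
    rw [map_sum]
    refine Finset.sum_congr rfl fun t _ => ?_
    rw [map_mul, map_prod, Algebra.smul_def]
    rfl
  refine ⟨J1, hJ1, fun t => algebraMap L0 K1 (F1 t), lam1, fun j => algebraMap L0 K1 (a0 j),
    fun t => lv (exF ι2 (F t)) (Sum.elim (fun b => (IsScalarTower.toAlgHom k L0 K1) (gL b)) y'),
    fun b => algebraMap L0 K1 (gL (Sum.inr b)), y', fun b => hgL (Sum.inr b), fun j => rfl,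
    fun t => (hlvK (F t)).trans (by rw [hz]), fun j => ?_, ?_⟩
  · rw [← hgs j, hsum j]
    change L0.val (∑ t : J1, algebraMap k L0 (lam1 j t) * F1 t + a0 j ^ p) = _
    rw [map_add, map_sum, map_pow]
    rfl
  · have h1 := hGM.reindex id Function.injective_id
      (Sum.elim (fun b => Sum.inl (Sum.inr b)) Sum.inr : S ⊕ Fin n → (Fin h ⊕ S) ⊕ Fin n)
    have h2 : (Sum.elim (fun b => (IsScalarTower.toAlgHom k L0 K1) (gL b)) y') ∘
        (Sum.elim (fun b => Sum.inl (Sum.inr b)) Sum.inr : S ⊕ Fin n → (Fin h ⊕ S) ⊕ Fin n) =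
        Sum.elim (fun b => algebraMap L0 K1 (gL (Sum.inr b))) y' := by
      funext j
      rcases j with q | q <;> rfl
    rw [h2] at h1
    exact h1

lemma ind_adjoin {l n : ℕ} {x : Fin l → K} {y : Fin n → K}
    (hind : AlgebraicIndependent
      (IntermediateField.adjoin k (Set.range y ∪ ⋃ i, (E i : Set K))) x) :
    AlgebraicIndependent (IntermediateField.adjoin (cps E) (Set.range y)) x := by
  have h1 : (IntermediateField.adjoin (cps E) (Set.range y)).restrictScalars k =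
      IntermediateField.adjoin k (Set.range y ∪ ⋃ i, (E i : Set K)) := by
    rw [Set.union_comm]
    exact IntermediateField.adjoin_adjoin_left k _ _
  rw [← h1] at hind
  exact hind

/-- The base as an abstract field. -/
theorem sch_gm' (hE : AreIndependentSurfaceFields E)
    (htr : Algebra.trdeg k K < Cardinal.aleph0)
    (J : Type) [Fintype J] (g : J → ∀ i, E i)
    (hg : ∀ i j j', j ≠ j' → (∃ b, b ^ p = g j i) ∨ ∃ b, b ^ p = g j' i)
    (hg0 : ∀ j i, g j i ≠ 0)
    {h : ℕ} (uu : Fin h → ∀ i, E i) (huu : ∀ b i, uu b i ≠ 0) (u : Fin h → K)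
    (hu : ∀ b, u b = ∏ i, (uu b i : K))
    {n : ℕ} (y : Fin n → K) (hy0 : ∀ j, y j ≠ 0) {d' c : ℕ} (ρ : Fin d' → Fin n)
    (hcd : c + d' = n) (hind : AlgebraicIndependent (cps E) (y ∘ ρ))
    (σ τ : Type) [Finite σ] [Fintype τ]
    (G : σ → (Fin h ⊕ Fin n → ℤ) →₀ k) (F : τ → (Fin h ⊕ Fin n → ℤ) →₀ k)
    (hG : ∀ s, lv (G s) (Sum.elim u y) = 0)
    (hND : NDV G F (fun j => j.isRight = true) (fun _ => True) c)
    {r : ℕ} (lam : Fin r → J → k) (S : Type) [Fintype S] (s : S → ∀ i, E i)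
    (hs : ∀ b i, s b i ≠ 0) {l : ℕ} {x : Fin l → K} (hx : AlgebraicIndependent
      (IntermediateField.adjoin k (Set.range y ∪ ⋃ i, (E i : Set K))) x) :
    ∃ (K0 : Type u) (_ : Field K0) (_ : Algebra k K0) (_ : Algebra K0 K)
      (_ : IsScalarTower k K0 K) (d1 : ℕ) (J1 : Type) (_ : Fintype J1)
      (F1 : J1 → K0) (lam1 : Fin r → J1 → k) (a0 : Fin r → K0) (Fτ : τ → K0) (g1 : S → K0)
      (y1 : Fin n → K0),
      Algebra.trdeg k K0 = d1 ∧ AlgebraicIndependent K0 x ∧
      (∀ i, ∀ z ∈ E i, z ∈ (algebraMap K0 K).range) ∧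
      (∀ b, algebraMap K0 K (g1 b) = ∏ i, (s b i : K)) ∧ (∀ j, algebraMap K0 K (y1 j) = y j) ∧
      (∀ t, algebraMap K0 K (Fτ t) = lv (F t) (Sum.elim u y)) ∧
      (∀ j, ∑ t, lam j t • ∏ i, (g t i : K) =
        ∑ t, algebraMap k K (lam1 j t) * algebraMap K0 K (F1 t) + algebraMap K0 K (a0 j) ^ p) ∧
      GM p k (Sum.elim F1 Fτ) (Sum.elim g1 y1) := by
  have hfin : ∀ (L : Type u) [Field L] [Algebra k L] (φ : L →ₐ[k] K),
      ∃ d0 : ℕ, Algebra.trdeg k L = d0 := by
    intro L _ _ φ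
    have h3 : Algebra.trdeg k L ≤ Algebra.trdeg k K :=
      _root_.trdeg_le_of_injective φ φ.injective
    exact Cardinal.lt_aleph0.1 (h3.trans_lt htr)
  obtain ⟨d0, hd0⟩ := hfin (cps E) (cps E).val
  obtain ⟨J1, hJ1, F1, lam1, a0, Fτ, g1, y1, hg1, hy1, hFτ, hsum, hGM0⟩ :=
    sch_gm (p := p) hE hd0 J g hg hg0 uu huu u hu y hy0 ρ hcd hind σ τ G F hG hND lam S s hs
  obtain ⟨d1, hd1⟩ := hfin (IntermediateField.adjoin (cps E) (Set.range y))
    ((IntermediateField.adjoin (cps E) (Set.range y)).val.restrictScalars k)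
  refine ⟨IntermediateField.adjoin (cps E) (Set.range y), inferInstance, inferInstance,
    inferInstance, IsScalarTower.of_algebraMap_eq fun c => rfl, d1, J1, hJ1, F1, lam1, a0, Fτ, g1,
    y1, hd1, ind_adjoin hx, ?_, hg1, hy1, hFτ, hsum, hGM0⟩
  intro i z hz
  have h3 : z ∈ cps E := mem_cps E i ⟨z, hz⟩
  exact ⟨algebraMap (cps E) (IntermediateField.adjoin (cps E) (Set.range y)) ⟨z, h3⟩, rfl⟩

end gen

end Pool.Agent.Helper50.Quad
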