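import Pool.Agent.Helper50.Add.Defs

/-!
# Purely inseparable covers by sums of products of two p-polynomials: definitions
-/

set_option autoImplicit false

universe u

open Pool.Agent.TH188.VT Pool.Agent.TH214.SD Pool.Agent.Helper50.Add

namespace Pool.Agent.Helper50.Quad

/-- The sums of products of two affine `p`-polynomials in `x 1, ..., x l` with coefficients
algebraic over the prime field, i.e. the polynomials in the `x i` with such coefficients whose
monomials are products of at most two factors of the form `x i ^ (p ^ j)`. -/
def pQuadratics (p : ℕ) (k : Type u) {K : Type u} [Field k] [Field K] [Algebra k K] {l : ℕ}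
    (x : Fin l → K) : AddSubgroup K :=
  AddSubgroup.closure {b | ∃ g ∈ pPolynomials p k x, ∃ g' ∈ pPolynomials p k x, b = g * g'}

section

variable {k K : Type u} [Field k] [Field K] [Algebra k K] {m n h d q s r l o : ℕ}
  (E : Fin m → IntermediateField k K)

/-- The function fields `E 1, ..., E m` of surfaces over `k` are linearly disjoint, the elements
`y j ≠ 0` satisfy schön equations `G i (u, y) = 0` over the field generated by the `E i`
(`IsSchonBase`), the elements `x 1, ..., x l` of `K` are algebraically independent over the field
generated by the `E i` and the `y j`, and the field `K` is generated over the field generated by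
the `E i`, the `y j` and the `x j` by elements `w j` such that the elements `w j ^ p` are linear
combinations with coefficients in `k` of the element `f`, which is a sum of products of two
affine `p`-polynomials in the `x j`, of products `g t 1 * ... * g t m` of elements `g t i ∈ E i`,
where for each `i` at most one of the `g t i` is not a `p`-th power in `E i`, and of the elements
`F t (u, y)`, where the Laurent polynomials `F t` are strongly nondegenerate on the subscheme
given by the `G i`. -/
structure IsQuadraticCover (p c : ℕ) (u : Fin h → K) (y : Fin n → K)
    (G : Fin q → (Fin h ⊕ Fin n → ℤ) →₀ k) (ρ : Fin d → Fin n) (g : Fin o → ∀ i, E i)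
    (F : Fin s → (Fin h ⊕ Fin n → ℤ) →₀ k) (x : Fin l → K) (f : K) (w : Fin r → K) : Prop where
  base : IsSchonBase E c u y G ρ
  nondegenerate : StronglyNondegenerateOn G F
  powers : ∀ i t t', t ≠ t' → (∃ b, b ^ p = g t i) ∨ ∃ b, b ^ p = g t' i
  independent : AlgebraicIndependent
    (IntermediateField.adjoin k (Set.range y ∪ ⋃ i, (E i : Set K))) x
  quadratic : f ∈ pQuadratics p k x
  roots : ∀ j, w j ^ p ∈ Submodule.span k
    (insert f ((Set.range fun t => ∏ i, (g t i : K)) ∪ Set.range fun t => value (F t) u y))
  generate : IntermediateField.adjoin k
    (Set.range w ∪ (Set.range x ∪ (Set.range y ∪ ⋃ i, (E i : Set K)))) = ⊤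

end

end Pool.Agent.Helper50.Quad
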