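import Pool.Agent.Helper50.Quad.Gm
import Pool.Agent.Helper50.Quad.Defs
import Pool.Agent.Helper50.Add.Main

/-!
# Joint normal forms over the field of rational functions
-/

set_option autoImplicit false
set_option linter.unusedVariables false
set_option linter.unusedSectionVars false

universe u

open Finsupp Module Pool.Agent.W558 Pool.Agent.W177.WD Pool.Agent.TH214 Pool.Agent.TH214.V
  Pool.Agent.Helper50.Add Pool.Agent.TH188.WP Pool.Agent.TH188.WQ Pool.Agent.TH188.VT
  Pool.Agent.TH188.VQ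

namespace Pool.Agent.Helper50.Quad

section mem

variable (p : ℕ) [hp : Fact p.Prime] {k K : Type u} [Field k] [CharP k p] [Field K] [Algebra k K]
  [CharP K p] {l : ℕ} (x : Fin l → K)

lemma quad_mem {f : K} (hf : f ∈ pQuadratics p k x) :
    ∃ N, 0 < N ∧ ∃ D, ∀ N', 0 < N' → N ∣ N' → ∀ D', D ≤ D' →
      ∃ (s : ℕ) (v v' : Fin s → Vm p x k N' D'), f = ∑ t, (v t : K) * v' t := by
  refine AddSubgroup.closure_induction (p := fun f _ => ∃ N, 0 < N ∧ ∃ D, ∀ N', 0 < N' →
    N ∣ N' → ∀ D', D ≤ D' → ∃ (s : ℕ) (v v' : Fin s → Vm p x k N' D'),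
      f = ∑ t, (v t : K) * v' t) ?_ ?_ ?_ ?_ hf
  · rintro f ⟨g, hg, g', hg', rfl⟩
    obtain ⟨N1, hN1, D1, h1⟩ := poly_mem p x hg
    obtain ⟨N2, hN2, D2, h2⟩ := poly_mem p x hg'
    refine ⟨N1 * N2, Nat.mul_pos hN1 hN2, max D1 D2, fun N' hN' hd D' hD' => ⟨1,
      fun _ => ⟨g, h1 N' hN' ((Dvd.intro _ rfl).trans hd) D' ((le_max_left _ _).trans hD')⟩,
      fun _ => ⟨g', h2 N' hN' ((Dvd.intro_left _ rfl).trans hd) D'
        ((le_max_right _ _).trans hD')⟩, ?_⟩⟩
    simp
  · exact ⟨1, one_pos, 0, fun N' _ _ D' _ => ⟨0, fun t => t.elim0, fun t => t.elim0, by simp⟩⟩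
  · rintro a b _ _ ⟨N1, hN1, D1, h1⟩ ⟨N2, hN2, D2, h2⟩
    refine ⟨N1 * N2, Nat.mul_pos hN1 hN2, max D1 D2, fun N' hN' hd D' hD' => ?_⟩
    obtain ⟨s1, v1, v1', e1⟩ := h1 N' hN' ((Dvd.intro _ rfl).trans hd) D'
      ((le_max_left _ _).trans hD')
    obtain ⟨s2, v2, v2', e2⟩ := h2 N' hN' ((Dvd.intro_left _ rfl).trans hd) D'
      ((le_max_right _ _).trans hD')
    refine ⟨s1 + s2, Fin.append v1 v2, Fin.append v1' v2', ?_⟩
    rw [e1, e2, Fin.sum_univ_add]
    simp
  · rintro a _ ⟨N, hN, D, h1⟩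
    refine ⟨N, hN, D, fun N' hN' hd D' hD' => ?_⟩
    obtain ⟨s, v, v', e⟩ := h1 N' hN' hd D' hD'
    refine ⟨s, fun t => - v t, v', ?_⟩
    rw [e, ← Finset.sum_neg_distrib]
    refine Finset.sum_congr rfl fun t _ => ?_
    rw [NegMemClass.coe_neg, neg_mul]

end mem

section block

variable {p : ℕ} [Fact p.Prime] {k E1 K1 : Type u} [Field k] [CharP k p] [Field E1] [Field K1]
  [Algebra k E1] [Algebra k K1] [Algebra E1 K1] [IsScalarTower k E1 K1] {l : ℕ}

/-- The joint normal form over the field of rational functions in the `x i`. -/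
theorem gm_block {d0 : ℕ} (htr : Algebra.trdeg k E1 = d0) {x : Fin l → K1}
    (hind : AlgebraicIndependent E1 x) (hgen : IntermediateField.adjoin E1 (Set.range x) = ⊤)
    {ι B : Type} [Fintype B] {F : ι → E1} {g : B → E1} (h : GM p k F g) {f : K1}
    (hf : f ∈ pQuadratics p k x) {S : Type} [Finite S] (bS : S → K1)
    (hbS : ∀ i, IsPolynomialProduct p k x (bS i)) :
    ∃ (J : Type) (_ : Fintype J) (F2 : J → K1) (ν : J → k) (a0 : K1),
      f = ∑ t, algebraMap k K1 (ν t) * F2 t + a0 ^ p ∧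
      GM p k (Sum.elim (fun i => algebraMap E1 K1 (F i)) F2)
        (Sum.elim (fun b => algebraMap E1 K1 (g b)) bS) := by
  classical
  have hcK : CharP K1 p := charP_of_injective_algebraMap (algebraMap k K1).injective p
  obtain ⟨N1, hN1, D1, h1⟩ := quad_mem p x hf
  have h2 : ∀ i, ∃ N, 0 < N ∧ ∃ D, ∀ N', 0 < N' → N ∣ N' → ∀ D', D ≤ D' →
      bS i ∈ Submonoid.closure
        {g : K1 | g ≠ 0 ∧ (g ∈ Vm p x k N' D' ∨ g⁻¹ ∈ Vm p x k N' D')} :=
    fun i => prod_mem' p x (hbS i)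
  cases nonempty_fintype S
  choose N2 hN2 D2 h2 using h2
  let N := N1 * ∏ i, N2 i
  let D := D1 + ∑ i, D2 i
  have hN : 0 < N := Nat.mul_pos hN1 (Finset.prod_pos fun i _ => hN2 i)
  have hfin : Finite (kN p k N) := kN_finite p k hN
  have hfd := Vm_fd (k := k) p x N D
  have hVf : Finite (Vm p x k N D) := Module.finite_of_finite (kN p k N)
  have hVf' : Finite {v : Vm p x k N D // v ≠ 0} := Subtype.finite
  obtain ⟨r, ⟨εr⟩⟩ := Finite.exists_equiv_fin {v : Vm p x k N D // v ≠ 0}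
  let y : Fin r → K1 := fun i => ((εr.symm i).1 : K1)
  have hy0 : ∀ i, y i ≠ 0 := fun i h0 => (εr.symm i).2 (Subtype.ext h0)
  have hyV : ∀ i, y i ∈ Vm p x k N D := fun i => (εr.symm i).1.2
  have hys : ∀ v ∈ Vm p x k N D, v ≠ 0 → ∃ i, y i = v := by
    intro v hv hv0
    refine ⟨εr ⟨⟨v, hv⟩, fun h0 => hv0 (congrArg Subtype.val h0)⟩, ?_⟩
    change ((εr.symm (εr _)).1 : K1) = v
    rw [Equiv.symm_apply_apply]
  have hcl : ∀ i, ∃ e : Fin r → ℤ, bS i = ∏ j, y j ^ e j := fun i =>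
    closure_exp (V := (Vm p x k N D : Set K1)) hy0 hys
      (h2 i N hN ((Finset.dvd_prod_of_mem _ (Finset.mem_univ i)).trans (Dvd.intro_left _ rfl)) D
        ((Finset.single_le_sum (f := D2) (fun _ _ => Nat.zero_le _)
          (Finset.mem_univ i)).trans (Nat.le_add_left _ _)))
  choose ex hex using hcl
  obtain ⟨s, v, v', hfv⟩ := h1 N hN (Dvd.intro _ rfl) D (Nat.le_add_right _ _)
  -- the elements `x i`
  have hxe : ∀ i, ∃ j, y j = x i := fun i => hys _ (Vm_x p x N D i) (hind.ne_zero i)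
  choose ix hix using hxe
  have hlr : l ≤ r := by
    have hinj : Function.Injective ix := by
      intro i j hij
      have h1 : x i = x j := by rw [← hix, ← hix, hij]
      exact hind.injective h1
    have h1 := Fintype.card_le_of_injective ix hinj
    simpa using h1
  have hgen' : IntermediateField.adjoin E1 (Set.range y) = ⊤ := by
    rw [eq_top_iff, ← hgen]
    refine IntermediateField.adjoin.mono E1 _ _ ?_
    rintro _ ⟨i, rfl⟩
    exact ⟨ix i, hix i⟩
  obtain ⟨b0, hb0⟩ := exists_dn (K0 := E1) htr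
  have hdn : ∃ b : Fin (d0 + l) → K1, AlgebraicIndependent k b := by
    have hb1 : AlgebraicIndependent k (fun i => algebraMap E1 K1 (b0 i)) :=
      hb0.map' (f := IsScalarTower.toAlgHom k E1 K1) (algebraMap E1 K1).injective
    have h1 := hb1.sumElim_of_tower (S := E1) (y := x)
      (by rintro _ ⟨i, rfl⟩; exact ⟨b0 i, rfl⟩) hind
    let ε : Fin (d0 + l) ≃ Fin l ⊕ Fin d0 := finSumFinEquiv.symm.trans (Equiv.sumComm _ _)
    exact ⟨_, h1.comp ε ε.injective⟩
  have hfinSg : Finite (Sg p (k₀ := kN p k N) y) := by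
    have : Finite (Fin r →₀ kN p k N) := Finite.of_equiv _ Finsupp.equivFunOnFinite.symm
    infer_instance
  obtain ⟨Nσ, ⟨ε⟩⟩ := Finite.exists_equiv_fin (Sg p (k₀ := kN p k N) y)
  obtain ⟨C, hC⟩ : ∃ C, C + l = r := ⟨r - l, by omega⟩
  have hND := ndv_gs (B := B) (k₀ := kN p k N) (k := k) (p := p) (l := l) (Vm p x k N D) hyV hys
    (Vm_rank p x hN D) hC ε.symm
  have hG := gmg_relative p (c := C) (d := d0 + l) htr
    (j1' := IsScalarTower.toAlgHom k E1 K1) hy0 (evm_gen hgen') (by omega) hdn h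
    (fun e => Gs (k₀ := kN p k N) (k := k) p B y (ε.symm e)) (fun e => gs_lv _ _) hND (eX B r)
  -- the monomials
  have hmo : ∀ {ι' : Type} {F' : ι' → K1},
      GM p k F' (Sum.elim (fun b => (IsScalarTower.toAlgHom k E1 K1) (g b)) y) →
      GM p k F' (Sum.elim (fun b => algebraMap E1 K1 (g b)) bS) := by
    rintro ι' F' ⟨T, I, hT, hI, M, n, a, hh, Γ, h3, h4, h5⟩
    have h6 := fn_monomials h4 (fun b : B => b) (fun _ => (0 : Fin r → ℤ))
    have h7 := h4
    refine ⟨T, I, hT, hI, M, n, a, hh, Sum.elim (fun b => Γ (Sum.inl b))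
      (fun i => fun c => ∑ j, ex i j * Γ (Sum.inr j) c), h3, ?_, h5⟩
    rintro (b | i) t
    · exact h4 (Sum.inl b) t
    · choose w w0 wA wi hw using fun j => h4 (Sum.inr j) t
      refine ⟨∏ j, w j ^ ex i j, Finset.prod_ne_zero_iff.2 fun j _ => zpow_ne_zero _ (w0 j),
        (M.A t).prod_mem fun j _ => zpow_mem_of (wA j) (Or.inr (wi j)), ?_, ?_⟩
      · rw [← Finset.prod_inv_distrib]
        refine (M.A t).prod_mem fun j _ => ?_
        rw [← zpow_neg]
        exact zpow_mem_of (wA j) (Or.inr (wi j))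
      · change bS i = _ * ∏ c, M.x t c ^ (∑ j, ex i j * Γ (Sum.inr j) c)
        rw [hex i, prod_zpow_comm (M.x t) (M.x0 t) (fun j => Γ (Sum.inr j)) (ex i),
          ← Finset.prod_mul_distrib]
        refine Finset.prod_congr rfl fun j _ => ?_
        have h8 : y j = w j * ∏ i, M.x t i ^ Γ (Sum.inr j) i := hw j
        rw [h8, mul_zpow]
  by_cases hpow : ∃ a : K1, a ^ p = ∑ t, (v t : K1) * v' t
  · obtain ⟨a, ha⟩ := hpow
    refine ⟨Empty, inferInstance, fun t => t.elim, fun t => t.elim, a, ?_, ?_⟩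
    · rw [hfv, ha]
      simp
    · obtain ⟨T, I, hT, hI, M, n, a, hh, Z, h3, h4, h5, -, -⟩ := hG
      have h6 : GM p k (Sum.elim (fun i => algebraMap E1 K1 (F i)) fun t : Empty => t.elim)
          (Sum.elim (fun b => (IsScalarTower.toAlgHom k E1 K1) (g b)) y) := by
        refine ⟨T, I, hT, hI, M, Sum.elim n fun t => t.elim, fun t => Sum.elim (a t) fun e => e.elim,
          fun t => Sum.elim (hh t) fun e => e.elim, Z, ⟨?_, ?_, ?_⟩, h4, h5⟩
        · rintro t (j | j)
          · exact h3.hA t j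
          · exact j.elim
        · rintro t (j | j)
          · exact h3.eq t j
          · exact j.elim
        · rintro t κ _ _ φ (j | j)
          · obtain ⟨v0, h7, h8⟩ := h3.ln t κ φ j
            refine ⟨v0, h7, ?_⟩
            rintro (l | l) hl
            · exact h8 l fun h => hl (by rw [h])
            · exact l.elim
          · exact j.elim
      exact hmo h6
  · have hq := gm_quad (k₀ := kN p k N) (k := k) (p := p) hyV hys v v' hpow ε.symm hG
    refine ⟨Unit, inferInstance, fun _ => ∑ t, (v t : K1) * v' t, fun _ => 1, 0, ?_, hmo hq⟩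
    rw [hfv, zero_pow (Fact.out : p.Prime).ne_zero]
    simp

end block

end Pool.Agent.Helper50.Quad
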