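import Pool.Graph.R_seed8.TH214.V.RelM

/-!
# Logarithmic vectors tangent to the equations on subvarieties of models
-/

set_option autoImplicit false
set_option linter.unusedVariables false
set_option linter.unusedSectionVars false

universe u

open Pool.Agent.W558 Pool.Agent.W177.WD Pool.Agent.W973.CUT Pool.Agent.W973.CUT2
  Pool.Agent.TH214 Pool.Agent.TH214.V

namespace Pool.Agent.Helper50.Quad

/-- Logarithmic vectors with arbitrary logarithmic values, tangent to the equations, on the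
functions `z j` with `vt j`. -/
def DualG {k K : Type u} [Field k] [Field K] [Algebra k K] {R0 R : Subalgebra k K} {T I : Type}
    [Fintype I] {ι J σ : Type} [Fintype J] (M : LM R0 R T I) (n : ι → I → ℤ) (h : T → ι → K)
    (z : J → K) (Z : J → I → ℤ) (vt : J → Prop) (G : σ → (J → ℤ) →₀ k) : Prop :=
  ∀ t (κ : Type u) [Field κ] [Algebra k κ] (φ : M.A t →ₐ[k] κ) (w : J → K)
    (wA : ∀ j, w j ∈ M.A t), (∀ j, w j ≠ 0) → (∀ j, (w j)⁻¹ ∈ M.A t) →
    (∀ j, z j = w j * ∏ i, M.x t i ^ Z j i) →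
    (∀ s, vl (G s) (ls φ (M.xA t) Z) (zp φ (M.xA t) wA Z) = 0) ∧
    ∀ b : J → κ, (∀ j, ¬ vt j → b j = 0) →
      (∀ s, der (G s) (ls φ (M.xA t) Z) (zp φ (M.xA t) wA Z) b = 0) →
      ∃ v : LT φ (M.x t), (∀ l (hh : h t l ∈ M.A t), om v (n l) hh = 0) ∧
        ∀ j, LGF v (Z j) (z j) (b j)

/-- A model with a joint normal form of the `f j`, on which the `z j` are locally monomials,
the monomials with the exponents `e a` are comparable, and which has sufficiently many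
logarithmic vectors. -/
def GMG (p : ℕ) (k : Type u) {K : Type u} [Field k] [Field K] [Algebra k K] {ι J σ X : Type}
    [Fintype J] (f : ι → K) (z : J → K) (vt : J → Prop) (G : σ → (J → ℤ) →₀ k)
    (e : X → J → ℤ) : Prop :=
  ∃ (T I : Type) (_ : Finite T) (_ : Fintype I) (M : LM (⊥ : Subalgebra k K) ⊤ T I)
    (n : ι → I → ℤ) (a h : T → ι → K) (Z : J → I → ℤ), NFJ p M f n a h ∧ Fn M z Z ∧ Frc M ∧
    (∀ a b t, (∀ i, gm Z 0 (e a) i ≤ gm Z 0 (e b) i ∨ (M.x t i)⁻¹ ∈ M.A t) ∨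
      (∀ i, gm Z 0 (e b) i ≤ gm Z 0 (e a) i ∨ (M.x t i)⁻¹ ∈ M.A t)) ∧
    DualG M n h z Z vt G

section main

variable {k K L : Type u} [Field k] [Field K] [Algebra k K] [Field L] [Algebra k L]
  {Q : Subalgebra k K} {π : Q →ₐ[k] L} {T I : Type} [Finite T] [Fintype I] {c d : ℕ}
  {M : LM (⊥ : Subalgebra k K) ⊤ T I} {ι J σ X : Type} [Fintype J] [Finite σ] [Finite X]
  {n : ι → I → ℤ} {a h : T → ι → K} {f : ι → K} {z : J → K} {Z : J → I → ℤ} {vt : J → Prop}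

/-- The model of the subvariety. -/
theorem cut_dual (hloc : S2_loc.{u}) (p : ℕ) [Fact p.Prime] (hN : NFJ p M f n a h)
    (hZ : Fn M z Z) (hD : DualV M n h z Z vt) (hin : CutIn π c d M) (haQ : ∀ t j, a t j ∈ Q)
    (G : σ → (J → ℤ) →₀ k) (hG : ∀ s, pq π (lv (G s) z) = 0)
    (hND : NDV G (fun t : Empty => (0 : (J → ℤ) →₀ k)) vt (fun _ => True) c) (e : X → J → ℤ) :
    GMG p k (fun j => pq π (f j)) (fun j => pq π (z j)) vt G e := by
  classical
  have hp : p.Prime := Fact.out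
  have : Fintype σ := Fintype.ofFinite σ
  let X' : Type := X ⊕ (Σ s : σ, {m // m ∈ (G s).support})
  let Γ' : X' → I → ℤ := Sum.elim (fun q => gm Z 0 (e q)) (fun q => gm Z 0 q.2.1)
  obtain ⟨T', I', iT, iI, M', ρ, Θ, hOv, hΘ, hS, hC⟩ := ovp_uq M Γ'
  let Z1 : J → I' → ℤ := fun j => tr Θ (Z j)
  have hN0 := nfj_ov hOv hN
  have hD1 := hD.ov hOv hN.hA
  have hZ1 : Fn M' z Z1 := hZ.ov hOv
  have hin1 : CutIn π c d M' := hin.ov hOv hS
  have hCE : ∀ q q' t', (∀ i, gm Z1 0 (e q) i ≤ gm Z1 0 (e q') i ∨ (M'.x t' i)⁻¹ ∈ M'.A t') ∨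
      (∀ i, gm Z1 0 (e q') i ≤ gm Z1 0 (e q) i ∨ (M'.x t' i)⁻¹ ∈ M'.A t') := by
    intro q q' t'
    have h1 := hC (Sum.inl q) (Sum.inl q') t'
    change (∀ i', (∑ i, Θ i' i * gm Z 0 (e q) i ≤ ∑ i, Θ i' i * gm Z 0 (e q') i ∨ _)) ∨
      (∀ i', (∑ i, Θ i' i * gm Z 0 (e q') i ≤ ∑ i, Θ i' i * gm Z 0 (e q) i ∨ _)) at h1
    simp only [tr_gm0] at h1
    exact h1
  have hCG : ∀ s t', CC (M'.A t') (M'.x t') Z1 (G s) := by
    intro t t' m hm m' hm'
    have h1 := hC (Sum.inr ⟨t, m, hm⟩) (Sum.inr ⟨t, m', hm'⟩) t'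
    change (∀ i', (∑ i, Θ i' i * gm Z 0 m i ≤ ∑ i, Θ i' i * gm Z 0 m' i ∨ _)) ∨
      (∀ i', (∑ i, Θ i' i * gm Z 0 m' i ≤ ∑ i, Θ i' i * gm Z 0 m i ∨ _)) at h1
    simp only [tr_gm0] at h1
    exact h1
  choose w w0 wA wi hw using fun (t' : T') (j : J) => hZ1 j t'
  have hpl := fun t' (κ : Type u) [Field κ] [Algebra k κ] (φ : M'.A t' →ₐ[k] κ) hφ =>
    place π hZ1 hD1 hin1 G (fun t : Empty => (0 : (J → ℤ) →₀ k)) (fun _ => True) hG hND hCG
      t' κ φ hφ (w0 t') (wA t') (wi t') (hw t')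
  have hpt : CutPt π c M' := by
    intro t' κ _ _ φ hφ
    obtain ⟨-, s, a, γ, v, -, -, h1, h2, -⟩ := hpl t' κ φ hφ
    exact ⟨γ, v, h1, h2⟩
  have hok : CutOk π c d M' := hin1.ok hpt
  have hzQ : ∀ j, z j ≠ 0 ∧ z j ∈ Q ∧ (z j)⁻¹ ∈ Q := fn_memQ (nonempty_T M') hin1.uq hZ1
  have hxQ : ∀ t i, M'.x t i ∈ Q := fun t i => hok.AQ t (M'.xA t i)
  have hprodQ : ∀ t (e : I' → ℤ), ∏ i, M'.x t i ^ e i ∈ Q := fun t e =>
    Q.prod_mem fun i _ => zpow_mem_of (hxQ t i) (Or.inr (hok.xQ t i))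
  have hpqprod : ∀ t (e : I' → ℤ), pq π (∏ i, M'.x t i ^ e i) =
      ∏ i, pq π (M'.x t i) ^ e i := by
    intro t e
    rw [pq_prod π _ _ fun i _ => zpow_mem_of (hxQ t i) (Or.inr (hok.xQ t i))]
    exact Finset.prod_congr rfl fun i _ => pq_zpow π (M'.x0 t i) (hxQ t i) (hok.xQ t i) _
  have hxi : ∀ t i, (M'.x t i)⁻¹ ∈ M'.A t → (pq π (M'.x t i))⁻¹ ∈ im π (M'.A t) (hok.AQ t) := by
    intro t i hi
    rw [← pq_inv π (M'.x0 t i) (hxQ t i) (hok.AQ t hi)]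
    exact pq_mem π _ hi
  have hwz : ∀ t' j, pq π (z j) = pq π (w t' j) * ∏ i, pq π (M'.x t' i) ^ Z1 j i := by
    intro t' j
    rw [← hpqprod, ← pq_mul π (hok.AQ t' (wA t' j)) (hprodQ t' _), ← hw t' j]
  refine ⟨T', I', iT, iI, cutLM π hok hloc, fun l => tr Θ (n l),
    fun t' j => pq π (a (ρ t') j), fun t' j => pq π (h (ρ t') j), Z1, ⟨?_, ?_, ?_⟩, ?_, ?_, ?_, ?_⟩
  · intro t' l
    exact pq_mem π _ (hN0.hA t' l)
  · intro t' l
    change pq π (f l) = pq π (a (ρ t') l) ^ p +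
      (∏ i, pq π (M'.x t' i) ^ tr Θ (n l) i) * pq π (h (ρ t') l)
    have haQ' := haQ (ρ t') l
    have hhQ : h (ρ t') l ∈ Q := hok.AQ t' (hN0.hA t' l)
    have h1 := hN0.eq t' l
    rw [h1, pq_add π (Q.pow_mem haQ' p) (Q.mul_mem (hprodQ t' _) hhQ),
      pq_pow π haQ', pq_mul π (hprodQ t' _) hhQ, hpqprod]
  · intro t' κ _ _ φ' j0
    let φ : M'.A t' →ₐ[k] κ := φ'.comp (qm π (M'.A t') (hok.AQ t'))
    have hφ : ∀ a (ha : a ∈ M'.A t'), pq π a = 0 → φ ⟨a, ha⟩ = 0 := fun a ha h0 =>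
      below_zero π (hok.AQ t') φ' a ha h0
    obtain ⟨hvl, s, av, γ, v, ha0, ha, hγ, hv, hV⟩ := hpl t' κ φ hφ
    let x := M'.x t'
    have hxA := M'.xA t'
    have hx0 := M'.x0 t'
    let ζ := zp φ hxA (wA t') Z1
    let l := ls φ hxA Z1
    have hhA : ∀ l, h (ρ t') l ∈ M'.A t' := fun l => hN0.hA t' l
    obtain ⟨v0, hv0, hv0'⟩ := hN0.ln t' κ φ j0
    choose α hα using fun j => LGF.exists v0 (w0 t' j) (wA t' j) (wi t' j) (hw t' j)
    obtain ⟨cc, hcc1, hcc2, hcc3⟩ := correct2 G (fun t : Empty => (0 : (J → ℤ) →₀ k)) l ζ vt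
      (fun _ => True) (fun _ => True) s av ha0 ha (fun t => t.elim) (fun t => t.elim)
      (fun t => t.elim) (fun t => t.elim) α
    obtain ⟨vD, hvD1, hvD2⟩ := hD1 t' κ φ (fun j => cc j - α j)
      (fun j hj => by rw [hcc1 j hj, sub_self])
    have hvD1' : ∀ l (hh : h (ρ t') l ∈ M'.A t'), om vD (tr Θ (n l)) hh = 0 :=
      fun l hh => hvD1 l hh
    have hz' : ∀ j, LGF (ltAdd v0 vD 1) (Z1 j) (z j) (cc j) := by
      intro j
      have h1 := LGF.add 1 hx0 (hα j) (hvD2 j)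
      have h2 : α j + 1 * (cc j - α j) = cc j := by ring
      rw [h2] at h1
      exact h1
    obtain ⟨V', hV'1, hV'2⟩ := desc_lt π hok hloc φ' hγ hv (ltAdd v0 vD 1)
      (hV (ltAdd v0 vD 1) cc hz' hcc2)
    have hom := fun (e : I' → ℤ) {y : K} (hy : y ∈ M'.A t')
      (hy' : pq π y ∈ im π (M'.A t') (hok.AQ t')) =>
      om_desc π (hok.AQ t') φ' (ltAdd v0 vD 1) V' hV'1 hV'2 e hy hy'
    refine ⟨V', ?_, ?_⟩
    · refine Eq.trans_ne (hom (tr Θ (n j0)) (hhA j0) _) ?_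
      change om (ltAdd v0 vD 1) (tr Θ (n j0)) (hhA j0) ≠ 0
      rw [om_ltAdd, hvD1' j0, mul_zero, add_zero]
      exact hv0
    · intro l' hne
      refine (hom (tr Θ (n l')) (hhA l') _).trans ?_
      change om (ltAdd v0 vD 1) (tr Θ (n l')) (hhA l') = 0
      rw [om_ltAdd, hvD1' l', mul_zero, add_zero]
      exact hv0' l' hne
  · intro j t'
    refine ⟨pq π (w t' j), pq_ne π (w0 t' j) (hok.AQ t' (wA t' j)) (hok.AQ t' (wi t' j)),
      pq_mem π _ (wA t' j), ?_, hwz t' j⟩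
    rw [← pq_inv π (w0 t' j) (hok.AQ t' (wA t' j)) (hok.AQ t' (wi t' j))]
    exact pq_mem π _ (wi t' j)
  · intro t' y
    exact im_frac π hok t' y
  · intro q q' t'
    exact (hCE q q' t').imp (fun h1 i => (h1 i).imp_right (hxi t' i))
      (fun h1 i => (h1 i).imp_right (hxi t' i))
  · intro t' κ _ _ φ' w'' wA'' w0'' wi'' hw''
    let φ : M'.A t' →ₐ[k] κ := φ'.comp (qm π (M'.A t') (hok.AQ t'))
    have hφ : ∀ a (ha : a ∈ M'.A t'), pq π a = 0 → φ ⟨a, ha⟩ = 0 := fun a ha h0 =>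
      below_zero π (hok.AQ t') φ' a ha h0
    obtain ⟨hvl, s, av, γ, v, ha0, ha, hγ, hv, hV⟩ := hpl t' κ φ hφ
    have hx0 := M'.x0 t'
    have hww : w'' = fun j => pq π (w t' j) := by
      funext j
      have h1 := hw'' j
      have h2 := hwz t' j
      have h3 : ∏ i, pq π (M'.x t' i) ^ Z1 j i ≠ 0 := Finset.prod_ne_zero_iff.2 fun i _ =>
        zpow_ne_zero _ (pq_ne π (hx0 i) (hxQ t' i) (hok.xQ t' i))
      exact mul_right_cancel₀ h3 (h1.symm.trans h2)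
    subst hww
    have hbl : ∀ i, φ' ⟨(cutLM π hok hloc).x t' i, (cutLM π hok hloc).xA t' i⟩ =
        φ ⟨M'.x t' i, M'.xA t' i⟩ := fun i => (below π (hok.AQ t') φ' _ (M'.xA t' i)).symm
    have hl : ls φ' ((cutLM π hok hloc).xA t') Z1 = ls φ (M'.xA t') Z1 := by
      funext j
      unfold ls
      refine Finset.sum_congr (Finset.filter_congr fun i _ => ?_) fun _ _ => rfl
      rw [hbl]
    have hqv : ∀ i, qv φ' ((cutLM π hok hloc).xA t') i = qv φ (M'.xA t') i := by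
      intro i
      unfold qv
      rw [hbl]
    have hzp : zp φ' ((cutLM π hok hloc).xA t') wA'' Z1 = zp φ (M'.xA t') (wA t') Z1 := by
      funext j
      unfold zp
      congr 1
      · exact (below π (hok.AQ t') φ' _ (wA t' j)).symm
      · exact Finset.prod_congr rfl fun i _ => by rw [hqv]
    rw [hl, hzp]
    refine ⟨hvl, fun b hb hb' => ?_⟩
    obtain ⟨vD, hvD1, hvD2⟩ := hD1 t' κ φ b hb
    obtain ⟨V', hV'1, hV'2⟩ := desc_lt π hok hloc φ' hγ hv vD (hV vD b hvD2 fun i => hb' _)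
    refine ⟨V', ?_, ?_⟩
    · intro l hh
      refine (om_desc π (hok.AQ t') φ' vD V' hV'1 hV'2 (tr Θ (n l)) (hN0.hA t' l) _).trans ?_
      exact hvD1 l (hN0.hA t' l)
    · intro j
      obtain ⟨u, u0, ui, hu, ⟨uA, hu2⟩⟩ := hvD2 j
      refine ⟨pq π u, pq_ne π u0 (hok.AQ t' uA) (hok.AQ t' ui), ?_, ?_, pq_mem π _ uA, ?_⟩
      · rw [← pq_inv π u0 (hok.AQ t' uA) (hok.AQ t' ui)]
        exact pq_mem π _ ui
      · change pq π (z j) = pq π u * ∏ i, pq π (M'.x t' i) ^ Z1 j i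
        rw [← hpqprod, ← pq_mul π (hok.AQ t' uA) (hprodQ t' _), ← hu]
      · refine (hV'1 u uA).trans ?_
        rw [hu2, hV'2]
        congr 1
        exact below π (hok.AQ t') φ' _ uA

end main

section rel

variable {k E1 L K0 : Type u} [Field k] [Field E1] [Field L] [Field K0] [Algebra k E1]
  [Algebra k L] [Algebra k K0] {r : ℕ} {ι B : Type} [Fintype B]

/-- The model of the subvariety of the product of a torus with a variety. -/
theorem gmg_rel (p : ℕ) [Fact p.Prime] {j1 : E1 →ₐ[k] L} {y1 : Fin r → L}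
    (hinj : Function.Injective (evm j1 y1))
    {j1' : E1 →ₐ[k] K0} {y' : Fin r → K0} (hy' : ∀ j, y' j ≠ 0)
    (hgen : ∀ x : K0, ∃ a b : MvPolynomial (Fin r) E1,
      evm j1' y' b ≠ 0 ∧ x * evm j1' y' b = evm j1' y' a)
    {c d : ℕ} (up : ∀ b : Fin (c + d + 1) → L, ¬ AlgebraicIndependent k b)
    (dn : ∃ b : Fin d → K0, AlgebraicIndependent k b)
    {f : ι → E1} {g : B → E1}
    (h : GMJDQ p k j1 (fun l => j1 (f l)) (fun b => j1 (g b)) y1)
    {σ X : Type} [Finite σ] [Finite X] (G : σ → (B ⊕ Fin r → ℤ) →₀ k)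
    (hG : ∀ s, lv (G s) (Sum.elim (fun b => j1' (g b)) y') = 0)
    (hND : NDV G (fun t : Empty => (0 : (B ⊕ Fin r → ℤ) →₀ k)) (fun q => q.isRight = true)
      (fun _ => True) c) (e : X → B ⊕ Fin r → ℤ) :
    GMG p k (fun l => j1' (f l)) (Sum.elim (fun b => j1' (g b)) y')
      (fun q => q.isRight = true) G e := by
  obtain ⟨T, I, hT, hI, M, n, a, hh, Γ, Y, hN, hFg, hFy, hD, hPQ, ha⟩ := h
  obtain ⟨Q, π, h1, h2, h3⟩ := cutIn_rel hinj hy' hgen up dn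
  have hin := h3 M Y hFy hPQ
  have hZ : Fn M (Sum.elim (fun b => j1 (g b)) y1) (Sum.elim Γ Y) := by
    rintro (b | j)
    · exact hFg b
    · exact hFy j
  have hpz : (fun j => pq π (Sum.elim (fun b => j1 (g b)) y1 j)) =
      Sum.elim (fun b => j1' (g b)) y' := by
    funext j
    rcases j with b | j
    · exact (h1 _).2
    · exact (h2 _).2
  have hzQ := fn_memQ (nonempty_T M) hin.uq hZ
  have h4 := cut_dual loc_main p hN hZ (Dual.dualV hD) hin (fun t j => by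
    obtain ⟨e, he⟩ := ha t j
    rw [he]
    exact (h1 e).1) G (fun s => by
      rw [pq_lv π (fun j => (hzQ j).1) (fun j => (hzQ j).2.1) (fun j => (hzQ j).2.2), hpz]
      exact hG s) hND e
  rw [hpz] at h4
  have h5 : (fun j => pq π (j1 (f j))) = fun l => j1' (f l) :=
    funext fun l => (h1 _).2
  rw [h5] at h4
  exact h4

/-- The model of the subvariety of the product of a torus with a variety. -/
theorem gmg_relative (p : ℕ) [Fact p.Prime] {d0 : ℕ} (htr : Algebra.trdeg k E1 = d0)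
    {j1' : E1 →ₐ[k] K0} {y' : Fin r → K0} (hy' : ∀ j, y' j ≠ 0)
    (hgen : ∀ x : K0, ∃ a b : MvPolynomial (Fin r) E1,
      evm j1' y' b ≠ 0 ∧ x * evm j1' y' b = evm j1' y' a)
    {c d : ℕ} (hcd : c + d = d0 + r)
    (dn : ∃ b : Fin d → K0, AlgebraicIndependent k b)
    {f : ι → E1} {g : B → E1} (h : GM p k f g)
    {σ X : Type} [Finite σ] [Finite X] (G : σ → (B ⊕ Fin r → ℤ) →₀ k)
    (hG : ∀ s, lv (G s) (Sum.elim (fun b => j1' (g b)) y') = 0)
    (hND : NDV G (fun t : Empty => (0 : (B ⊕ Fin r → ℤ) →₀ k)) (fun q => q.isRight = true)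
      (fun _ => True) c) (e : X → B ⊕ Fin r → ℤ) :
    GMG p k (fun l => j1' (f l)) (Sum.elim (fun b => j1' (g b)) y')
      (fun q => q.isRight = true) G e := by
  have h1 := gmjd_prodQ (IsScalarTower.toAlgHom k E1 (RF E1 (Fin r)))
    (rsub (ly_ind (k := k) (E1 := E1) (r := r))) pm_inj pm_frac h (rat_RF (Fin r))
  have h2 : (fun j => rsub (ly_ind (k := k) (E1 := E1) (r := r))
      (algebraMap (MvPolynomial (Fin r) k) (RF k (Fin r)) (MvPolynomial.X j))) = ly E1 r :=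
    funext fun j => rsub_X _ j
  rw [h2] at h1
  exact gmg_rel p ly_evm_inj hy' hgen (fun b => up_RF htr (by omega) b) dn h1 G hG hND e

end rel

end Pool.Agent.Helper50.Quad
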