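import Pool.Agent.Helper50.Add.Model2
import Pool.Agent.Helper50.Quad.Cut

/-!
# The equations of a finite space of functions closed under taking roots
-/

set_option autoImplicit false
set_option linter.unusedVariables false
set_option linter.unusedSectionVars false

universe u

open Finsupp Pool.Agent.TH214 Pool.Agent.TH214.V Pool.Agent.W558 Pool.Agent.TH214.SD
  Pool.Agent.Helper50.Add

namespace Pool.Agent.Helper50.Quad

/-- The types of the equations. -/
abbrev Sg (p : ℕ) {k₀ K : Type*} [Field k₀] [Field K] [Algebra k₀ K] {r : ℕ}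
    (g : Fin r → K) : Type _ :=
  {c : Fin r →₀ k₀ // linearCombination k₀ g c = 0} ⊕ {ij : Fin r × Fin r // g ij.2 = g ij.1 ^ p}

section sys

variable {r l : ℕ} {B : Type} [Fintype B] [DecidableEq B]
  {k₀ : Type*} {k K : Type u} [Field k₀] [Finite k₀] [Field k] [Field K] [Algebra k₀ k]
  [Algebra k K] [Algebra k₀ K] [IsScalarTower k₀ k K] {p : ℕ} [Fact p.Prime] [CharP k p]

/-- The equations. -/
noncomputable def Gs (p : ℕ) (B : Type) [Fintype B] [DecidableEq B] (g : Fin r → K) :
    Sg p (k₀ := k₀) g → (B ⊕ Fin r → ℤ) →₀ k :=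
  Sum.elim (fun c => linF k (Function.Embedding.inr : Fin r ↪ B ⊕ Fin r) c.1)
    (fun ij => biF k (Pi.single (Sum.inr ij.1.2) 1) (Pi.single (Sum.inr ij.1.1) p))

lemma ne_bs (hp : p.Prime) (i j : Fin r) :
    (Pi.single (Sum.inr j) 1 : B ⊕ Fin r → ℤ) ≠ Pi.single (Sum.inr i) (p : ℤ) := by
  intro h1
  have h2 := congrFun h1 (Sum.inr j)
  rw [Pi.single_eq_same] at h2
  by_cases hij : (Sum.inr j : B ⊕ Fin r) = Sum.inr i
  · rw [hij, Pi.single_eq_same] at h2
    have := hp.one_lt
    omega
  · rw [Pi.single_eq_of_ne hij] at h2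
    exact one_ne_zero h2

lemma gs_lv {g : Fin r → K} (u : B → K) (e : Sg p (k₀ := k₀) g) :
    lv (Gs (k₀ := k₀) (k := k) p B g e) (Sum.elim u g) = 0 := by
  have hp : p.Prime := Fact.out
  rcases e with c | ij
  · exact (linF_lv (k := k) (Function.Embedding.inr : Fin r ↪ B ⊕ Fin r) c.1 (Sum.elim u g)).trans
      c.2
  · refine biF_lv (ne_bs hp _ _) _ ?_
    rw [prod_single, prod_single, zpow_one, zpow_natCast]
    exact ij.2

variable (V : Submodule k₀ K) {g : Fin r → K}

/-- The dimension of the tangent spaces. -/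
theorem ann_gs {κ : Type u} [Field κ] [Algebra k κ] [Algebra k₀ κ] [tow : IsScalarTower k₀ k κ]
    [CharP k₀ p] [CharP K p] (hgV : ∀ i, g i ∈ V)
    (hgs : ∀ v ∈ V, v ≠ 0 → ∃ i, g i = v) [FiniteDimensional k₀ V]
    (hrk : Module.finrank k₀ V ≤ Module.finrank k₀ (powersIn p V) + l)
    (w : B ⊕ Fin r → ℤ) (z : B ⊕ Fin r → κ) (hz : ∀ j, z j ≠ 0)
    (hv : ∀ e, vl (Gs (k₀ := k₀) (k := k) p B g e) w z = 0) :
    Module.finrank κ
      (ann fun e => gv (Gs (k₀ := k₀) (k := k) p B g e)
        (Function.Embedding.inr : Fin r ↪ B ⊕ Fin r) w z) ≤ l := by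
  classical
  have hp : p.Prime := Fact.out
  have hcκ : CharP κ p := charP_of_injective_algebraMap (algebraMap k κ).injective p
  let A := ann fun e => gv (Gs (k₀ := k₀) (k := k) p B g e)
        (Function.Embedding.inr : Fin r ↪ B ⊕ Fin r) w z
  have hA : ∀ b ∈ A, ∀ e, der (Gs (k₀ := k₀) (k := k) p B g e) w z (dirE b) = 0 := by
    intro b hb e
    rw [der_dir]
    exact hb e
  let g' : Fin r → V := fun i => ⟨g i, hgV i⟩
  have hlc : ∀ c : Fin r →₀ k₀, linearCombination k₀ g' c = 0 → linearCombination k₀ g c = 0 := by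
    intro c hc
    have h1 : (V.subtype) (linearCombination k₀ g' c) = linearCombination k₀ g c := by
      rw [Finsupp.linearCombination_apply, Finsupp.linearCombination_apply, Finsupp.sum,
        Finsupp.sum, map_sum]
      rfl
    rw [← h1, hc, map_zero]
  have hT : Trop k₀ g' (fun i => w (Sum.inr i)) (fun i => z (Sum.inr i)) := by
    refine trop_of (k := k) fun c hc => ?_
    have h1 := hv (Sum.inl ⟨c, hlc c hc⟩)
    have h2 := linF_vl (k := k) (Function.Embedding.inr : Fin r ↪ B ⊕ Fin r) c w z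
    exact h2.symm.trans h1
  let W : Submodule k₀ V := (powersIn p V).comap V.subtype
  have hWf : Module.finrank k₀ W = Module.finrank k₀ (powersIn p V) :=
    (Submodule.comapSubtypeEquivOfLe (powersIn_le p V)).finrank_eq
  have h1 := tangent hT (fun i => hz _) (fun v hv0 => by
    obtain ⟨i, hi⟩ := hgs v.1 v.2 (fun h => hv0 (Subtype.ext h))
    exact ⟨i, 1, one_ne_zero, by rw [one_smul]; exact Subtype.ext hi.symm⟩) W A (by
    intro b hb
    refine trop_of (k := k) fun c hc => ?_
    have h1 := hA b hb (Sum.inl ⟨c, hlc c hc⟩)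
    have h2 := linF_der (k := k) (Function.Embedding.inr : Fin r ↪ B ⊕ Fin r) c w z (dirE b)
    exact h2.symm.trans h1) (by
    intro b hb i hi
    obtain ⟨hi1, x, hx, hxi⟩ := hi
    have hx0 : x ≠ 0 := by
      rintro rfl
      have h3 : linearCombination k₀ g (single i (1 : k₀)) = 0 := by
        rw [linearCombination_single, one_smul]
        have h4 : g i = (0 : K) ^ p := hxi.symm
        rw [h4, zero_pow hp.ne_zero]
      have h4 := hv (Sum.inl ⟨single i 1, h3⟩)
      have h5 := linF_vl (k := k) (Function.Embedding.inr : Fin r ↪ B ⊕ Fin r)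
        (single i (1 : k₀)) w z
      have h6 : vl (linF k (Function.Embedding.inr : Fin r ↪ B ⊕ Fin r)
        (single i (1 : k₀))) w z = 0 := h4
      have h7 : (single i (1 : k₀)).support = {i} := by
        ext j
        simp [eq_comm]
      rw [h5, h7, Finset.sum_filter,
        Finset.sum_singleton, if_pos (by simp), Finsupp.single_eq_same, map_one, map_one,
        one_mul] at h6
      exact hz _ h6
    obtain ⟨j, hj⟩ := hgs x hx hx0
    have hij : g i = g j ^ p := by rw [hj]; exact hxi.symm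
    have h7 := biF_der (ne_bs (B := B) hp j i) w z hz
      (hv (Sum.inr ⟨(j, i), hij⟩)) (dirE b)
      (hA b hb (Sum.inr ⟨(j, i), hij⟩))
    rw [sum_single', sum_single'] at h7
    have h8 : (((p : ℕ) : ℤ) : κ) = 0 := by
      rw [Int.cast_natCast]
      exact CharP.cast_eq_zero κ p
    rw [h8, zero_mul, Int.cast_one, one_mul] at h7
    exact h7)
  rw [hWf] at h1
  change Module.finrank κ A ≤ l
  omega

/-- Nondegeneracy of the system. -/
theorem ndv_gs [CharP k₀ p] [CharP K p] (hgV : ∀ i, g i ∈ V)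
    (hgs : ∀ v ∈ V, v ≠ 0 → ∃ i, g i = v) [FiniteDimensional k₀ V]
    (hrk : Module.finrank k₀ V ≤ Module.finrank k₀ (powersIn p V) + l)
    {C : ℕ} (hC : C + l = r) {σ : Type} [Finite σ] (ε : σ ≃ Sg p (k₀ := k₀) g) :
    NDV (fun e => Gs (k₀ := k₀) (k := k) p B g (ε e))
      (fun t : Empty => (0 : (B ⊕ Fin r → ℤ) →₀ k)) (fun q => q.isRight = true)
      (fun _ => True) C := by
  classical
  have hnd : NDVc (fun e => Gs (k₀ := k₀) (k := k) p B g (ε e))
      (fun t : Empty => (0 : (B ⊕ Fin r → ℤ) →₀ k)) (Function.Embedding.inr : Fin r ↪ B ⊕ Fin r)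
      (fun _ => True) C := by
    intro w z hz hv
    have hv' : ∀ e, vl (Gs (k₀ := k₀) (k := k) p B g e) w z = 0 := by
      intro e
      have h1 := hv (ε.symm e)
      simp only [ε.apply_symm_apply] at h1
      exact h1
    refine ⟨?_, fun t => t.elim⟩
    have h1 := ann_gs (B := B) (k₀ := k₀) (k := k) (l := l) V hgV hgs hrk w z hz hv'
    have h2 := rank_ann (κ := AlgebraicClosure k)
      (fun e => gv (Gs (k₀ := k₀) (k := k) p B g (ε e))
        (Function.Embedding.inr : Fin r ↪ B ⊕ Fin r) w z)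
      (ann fun e => gv (Gs (k₀ := k₀) (k := k) p B g (ε e))
        (Function.Embedding.inr : Fin r ↪ B ⊕ Fin r) w z) (fun a => Iff.rfl)
    have h3 : (ann fun e => gv (Gs (k₀ := k₀) (k := k) p B g (ε e))
        (Function.Embedding.inr : Fin r ↪ B ⊕ Fin r) w z) =
        ann fun e => gv (Gs (k₀ := k₀) (k := k) p B g e)
        (Function.Embedding.inr : Fin r ↪ B ⊕ Fin r) w z := by
      ext a
      constructor
      · intro h4 e
        have h5 := h4 (ε.symm e)
        simp only [ε.apply_symm_apply] at h5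
        exact h5
      · intro h4 e
        exact h4 (ε e)
    rw [h3, Fintype.card_fin] at h2
    change C ≤ Module.finrank (AlgebraicClosure k) (Submodule.span (AlgebraicClosure k)
      (Set.range fun e => gv (Gs (k₀ := k₀) (k := k) p B g (ε e))
        (Function.Embedding.inr : Fin r ↪ B ⊕ Fin r) w z))
    omega
  have hnd2 := ndv_of_ndvc hnd
  have e1 : (fun j => j ∈ Set.range (Function.Embedding.inr : Fin r ↪ B ⊕ Fin r)) =
      fun j : B ⊕ Fin r => j.isRight = true := by
    funext j
    apply propext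
    rcases j with j | j
    · constructor
      · rintro ⟨i, hi⟩
        exact absurd hi (by simp)
      · intro hi
        exact absurd hi (by simp)
    · exact ⟨fun _ => rfl, fun _ => ⟨j, rfl⟩⟩
  rw [e1] at hnd2
  exact hnd2

end sys

end Pool.Agent.Helper50.Quad
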