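import Pool.Agent.Helper50.Quad.Form
import Pool.Agent.Helper50.Quad.Sys

/-!
# Divisibility on a chart
-/

set_option autoImplicit false
set_option linter.unusedVariables false
set_option linter.unusedSectionVars false

universe u

open Module Pool.Agent.W558 Pool.Agent.W177.WD Pool.Agent.TH214 Pool.Agent.TH214.V
  Pool.Agent.Helper50.Add

namespace Pool.Agent.Helper50.Quad

section mono

variable {k K : Type u} [Field k] [Field K] [Algebra k K] {A : Subalgebra k K} {I : Type}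
  [Fintype I] {x : I → K}

/-- The element `z` is the product of a unit and of a monomial. -/
def IsMon (A : Subalgebra k K) (x : I → K) (z : K) (γ : I → ℤ) : Prop :=
  ∃ w, w ≠ 0 ∧ w ∈ A ∧ w⁻¹ ∈ A ∧ z = w * ∏ i, x i ^ γ i

/-- Comparison of exponents at the non-invertible coordinates. -/
def LeN (A : Subalgebra k K) (x : I → K) (γ γ' : I → ℤ) : Prop :=
  ∀ i, γ i ≤ γ' i ∨ (x i)⁻¹ ∈ A

lemma LeN.refl (γ : I → ℤ) : LeN A x γ γ := fun i => Or.inl le_rfl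

lemma LeN.trans {γ γ' γ'' : I → ℤ} (h : LeN A x γ γ') (h' : LeN A x γ' γ'') : LeN A x γ γ'' :=
  fun i => (h i).elim (fun h1 => (h' i).imp_left fun h2 => h1.trans h2) Or.inr

lemma IsMon.ne {z : K} {γ : I → ℤ} (hx0 : ∀ i, x i ≠ 0) (h : IsMon A x z γ) : z ≠ 0 := by
  obtain ⟨w, h0, -, -, rfl⟩ := h
  exact mul_ne_zero h0 (Finset.prod_ne_zero_iff.2 fun i _ => zpow_ne_zero _ (hx0 i))

lemma IsMon.mul {z z' : K} {γ γ' : I → ℤ} (hx0 : ∀ i, x i ≠ 0) (h : IsMon A x z γ)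
    (h' : IsMon A x z' γ') : IsMon A x (z * z') (γ + γ') := by
  obtain ⟨w, h0, h1, h2, rfl⟩ := h
  obtain ⟨w', h0', h1', h2', rfl⟩ := h'
  refine ⟨w * w', mul_ne_zero h0 h0', A.mul_mem h1 h1', ?_, ?_⟩
  · rw [mul_inv]
    exact A.mul_mem h2 h2'
  · have h3 : ∏ i, x i ^ (γ + γ') i = (∏ i, x i ^ γ i) * ∏ i, x i ^ γ' i := by
      rw [← Finset.prod_mul_distrib]
      exact Finset.prod_congr rfl fun i _ => zpow_add₀ (hx0 i) _ _
    rw [h3]
    ring

lemma mono_memN (hxA : ∀ i, x i ∈ A) {γ : I → ℤ} (h : LeN A x 0 γ) : ∏ i, x i ^ γ i ∈ A :=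
  A.prod_mem fun i _ => zpow_mem_of (hxA i) ((h i).imp_left fun h => h)

/-- Divisibility of monomials. -/
lemma le_dvd (hxA : ∀ i, x i ∈ A) (hx0 : ∀ i, x i ≠ 0) {z z' : K} {γ γ' : I → ℤ}
    (h : IsMon A x z γ) (h' : IsMon A x z' γ') (hle : LeN A x γ γ') : ∃ a ∈ A, z' = a * z := by
  obtain ⟨w, h0, h1, h2, rfl⟩ := h
  obtain ⟨w', h0', h1', h2', rfl⟩ := h'
  refine ⟨w' * w⁻¹ * ∏ i, x i ^ (γ' - γ) i, A.mul_mem (A.mul_mem h1' h2)
    (mono_memN hxA fun i => (hle i).imp_left fun h => ?_), ?_⟩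
  · change 0 ≤ γ' i - γ i
    omega
  · have h3 : ∏ i, x i ^ γ' i = (∏ i, x i ^ (γ' - γ) i) * ∏ i, x i ^ γ i := by
      rw [← Finset.prod_mul_distrib]
      refine Finset.prod_congr rfl fun i _ => ?_
      rw [← zpow_add₀ (hx0 i), Pi.sub_apply, sub_add_cancel]
    rw [h3]
    field_simp

/-- Divisible comparable monomials. -/
lemma dvd_le (hxA : ∀ i, x i ∈ A) (hx0 : ∀ i, x i ≠ 0) {z z' : K} {γ γ' : I → ℤ}
    (h : IsMon A x z γ) (h' : IsMon A x z' γ') (hc : LeN A x γ γ' ∨ LeN A x γ' γ)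
    (hd : ∃ a ∈ A, z' = a * z) : LeN A x γ γ' := by
  classical
  rcases hc with hc | hc
  · exact hc
  obtain ⟨a, ha, haz⟩ := hd
  have hz0 := h.ne hx0
  have hz0' := h'.ne hx0
  obtain ⟨w, h0, h1, h2, h3⟩ := h
  obtain ⟨w', h0', h1', h2', h3'⟩ := h'
  intro i0
  by_contra hcon
  push Not at hcon
  obtain ⟨hlt, hni⟩ := hcon
  apply hni
  -- `x ^ (γ - γ')` has an inverse
  have hP : ∀ γ : I → ℤ, ∏ i, x i ^ γ i ≠ 0 := fun γ =>
    Finset.prod_ne_zero_iff.2 fun i _ => zpow_ne_zero _ (hx0 i)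
  have h4 : (∏ i, x i ^ (γ' - γ) i) = w * w'⁻¹ * a := by
    have h5 : (∏ i, x i ^ (γ' - γ) i) * ∏ i, x i ^ γ i = ∏ i, x i ^ γ' i := by
      rw [← Finset.prod_mul_distrib]
      refine Finset.prod_congr rfl fun i _ => ?_
      rw [← zpow_add₀ (hx0 i), Pi.sub_apply, sub_add_cancel]
    apply mul_right_cancel₀ (hP γ)
    rw [h5]
    have h6 : w' * ∏ i, x i ^ γ' i = a * (w * ∏ i, x i ^ γ i) := by rw [← h3, ← h3', haz]
    apply mul_left_cancel₀ h0'
    rw [h6]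
    field_simp
  have h5 : (x i0)⁻¹ = (∏ i, x i ^ (γ - γ' - (Pi.single i0 1 : I → ℤ)) i) *
      ∏ i, x i ^ (γ' - γ) i := by
    rw [← Finset.prod_mul_distrib]
    have h6 : ∀ i, x i ^ (γ - γ' - (Pi.single i0 1 : I → ℤ)) i * x i ^ (γ' - γ) i =
        if i = i0 then (x i0)⁻¹ else 1 := by
      intro i
      rw [← zpow_add₀ (hx0 i)]
      by_cases hi : i = i0
      · subst hi
        rw [if_pos rfl, Pi.sub_apply, Pi.sub_apply, Pi.sub_apply, Pi.single_eq_same]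
        rw [show γ i - γ' i - 1 + (γ' i - γ i) = -1 by ring, zpow_neg_one]
      · rw [if_neg hi, Pi.sub_apply, Pi.sub_apply, Pi.sub_apply, Pi.single_eq_of_ne hi]
        rw [show γ i - γ' i - 0 + (γ' i - γ i) = 0 by ring, zpow_zero]
    rw [Finset.prod_congr rfl fun i _ => h6 i, Finset.prod_ite_eq' Finset.univ i0,
      if_pos (Finset.mem_univ _)]
  rw [h5, h4]
  refine A.mul_mem (mono_memN hxA fun i => ?_) (A.mul_mem (A.mul_mem h1 h2') ha)
  rcases hc i with h6 | h6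
  · left
    by_cases hi : i = i0
    · subst hi
      rw [Pi.sub_apply, Pi.sub_apply, Pi.single_eq_same]
      change 0 ≤ γ i - γ' i - 1
      omega
    · rw [Pi.sub_apply, Pi.sub_apply, Pi.single_eq_of_ne hi]
      change 0 ≤ γ i - γ' i - 0
      omega
  · exact Or.inr h6

/-- A monomial divided by the monomial with the same exponents is a unit. -/
lemma unit_of (hxA : ∀ i, x i ∈ A) (hx0 : ∀ i, x i ≠ 0) {z : K} {γ n : I → ℤ}
    (h : IsMon A x z γ) (hn : ∀ i, γ i = n i ∨ (x i)⁻¹ ∈ A) :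
    z * ∏ i, x i ^ (-n i) ≠ 0 ∧ z * ∏ i, x i ^ (-n i) ∈ A ∧ (z * ∏ i, x i ^ (-n i))⁻¹ ∈ A := by
  obtain ⟨w, h0, h1, h2, rfl⟩ := h
  have h3 : w * (∏ i, x i ^ γ i) * ∏ i, x i ^ (-n i) = w * ∏ i, x i ^ (γ i - n i) := by
    rw [mul_assoc, ← Finset.prod_mul_distrib]
    congr 1
    refine Finset.prod_congr rfl fun i _ => ?_
    rw [← zpow_add₀ (hx0 i), sub_eq_add_neg]
  rw [h3]
  refine ⟨mul_ne_zero h0 (Finset.prod_ne_zero_iff.2 fun i _ => zpow_ne_zero _ (hx0 i)),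
    A.mul_mem h1 (A.prod_mem fun i _ => zpow_mem_of (hxA i) ((hn i).imp_left fun h => by omega)),
    ?_⟩
  rw [mul_inv, ← Finset.prod_inv_distrib]
  refine A.mul_mem h2 (A.prod_mem fun i _ => ?_)
  rw [← zpow_neg]
  exact zpow_mem_of (hxA i) ((hn i).imp_left fun h => by omega)

variable {κ : Type u} [Field κ] [Algebra k κ] {φ : A →ₐ[k] κ}

/-- The value of the logarithmic form on a monomial. -/
lemma om_mon {v : LT φ x} (hx0 : ∀ i, x i ≠ 0) (hxA : ∀ i, x i ∈ A) {γ : I → ℤ} {z : K} {s : κ}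
    (h : LGF v γ z s) (n : I → ℤ) (hn : LeN A x n γ)
    (hh : z * ∏ i, x i ^ (- n i) ∈ A) : om v n hh = φ ⟨_, hh⟩ * s := by
  obtain ⟨w, h0, h1, h2, h3⟩ := h
  have e : z * ∏ i, x i ^ (- n i) = w * ∏ i, x i ^ (γ i - n i) := by
    rw [h2, mul_assoc, ← Finset.prod_mul_distrib]
    congr 1
    refine Finset.prod_congr rfl fun i _ => ?_
    rw [← zpow_add₀ (hx0 i), sub_eq_add_neg]
  have h4 : LG v.D (w * ∏ i, x i ^ (γ i - n i)) (s - ∑ i, (γ i : κ) * v.e i +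
      ∑ i, ((γ i - n i : ℤ) : κ) * v.e i) := by
    refine h3.mul (LG.prod _ _ _ fun i _ => ?_)
    refine LG.zpow ⟨hxA i, v.hx i (hxA i)⟩ (hx0 i) _ ((hn i).imp_left fun h => ?_)
    omega
  rw [← e] at h4
  have h5 := h4.eq hh
  unfold om
  rw [h5]
  have e2 : ∑ i, ((γ i - n i : ℤ) : κ) * v.e i =
      ∑ i, (γ i : κ) * v.e i - ∑ i, (n i : κ) * v.e i := by
    rw [← Finset.sum_sub_distrib]
    refine Finset.sum_congr rfl fun i _ => ?_
    push_cast
    ring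
  rw [e2]
  ring

/-- The value of a sum. -/
lemma phi_sum {M : Type} (S : Finset M) (c : M → k) (u : M → K) (val : M → κ)
    (h : ∀ m ∈ S, ∃ hm : u m ∈ A, φ ⟨u m, hm⟩ = val m) :
    ∃ hh : ∑ m ∈ S, c m • u m ∈ A, φ ⟨_, hh⟩ = ∑ m ∈ S, algebraMap k κ (c m) * val m := by
  classical
  induction S using Finset.induction_on with
  | empty =>
    refine ⟨by rw [Finset.sum_empty]; exact A.zero_mem, ?_⟩
    have h1 : (⟨∑ m ∈ (∅ : Finset M), c m • u m, by rw [Finset.sum_empty]; exact A.zero_mem⟩ : A) =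
      0 := Subtype.ext (Finset.sum_empty (f := fun m => c m • u m))
    exact (congrArg φ h1).trans ((map_zero φ).trans
      (Finset.sum_empty (f := fun m => algebraMap k κ (c m) * val m)).symm)
  | insert b S hb ih =>
    obtain ⟨h1, h2⟩ := ih fun m hm => h m (Finset.mem_insert_of_mem hm)
    obtain ⟨h3, h4⟩ := h b (Finset.mem_insert_self b S)
    have h5 : ∑ m ∈ insert b S, c m • u m = c b • u b + ∑ m ∈ S, c m • u m :=
      Finset.sum_insert hb
    have h6 : ∑ m ∈ insert b S, c m • u m ∈ A := by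
      rw [h5]
      exact A.add_mem (A.smul_mem h3 _) h1
    refine ⟨h6, ?_⟩
    have h7 : (⟨_, h6⟩ : A) = c b • ⟨u b, h3⟩ + ⟨_, h1⟩ := Subtype.ext h5
    rw [h7, map_add, map_smul, h4, h2, Algebra.smul_def]
    exact (Finset.sum_insert (f := fun m => algebraMap k κ (c m) * val m) hb).symm

end mono

section dv

variable {k₀ : Type*} {k K : Type u} [Field k₀] [Field k] [Field K] [Algebra k₀ k]
  [Algebra k K] [Algebra k₀ K] [IsScalarTower k₀ k K] {V : Submodule k₀ K} {I : Type}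
  [Fintype I] {r : ℕ} {y : Fin r → K} {Z : Fin r → I → ℤ}

/-- Divisibility over a ring. -/
def dvA (A : Subalgebra k K) (V : Submodule k₀ K) (v v' : V) : Prop := ∃ a ∈ A, (v' : K) = a * v

lemma dvA_Dv (A : Subalgebra k K) (htot : ∀ v v' : V, dvA A V v v' ∨ dvA A V v' v) :
    Dv k₀ (dvA A V) where
  refl := fun v => ⟨1, A.one_mem, (one_mul _).symm⟩
  trans := by
    rintro u v w ⟨a, ha, h1⟩ ⟨b, hb, h2⟩
    exact ⟨b * a, A.mul_mem hb ha, by rw [h2, h1, mul_assoc]⟩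
  zero := fun v => ⟨0, A.zero_mem, by rw [zero_mul]; rfl⟩
  add := by
    rintro u v w ⟨a, ha, h1⟩ ⟨b, hb, h2⟩
    exact ⟨a + b, A.add_mem ha hb, by rw [add_mul, ← h1, ← h2]; rfl⟩
  smul := by
    rintro c u v ⟨a, ha, h1⟩
    refine ⟨algebraMap k₀ k c • a, A.smul_mem ha _, ?_⟩
    rw [smul_mul_assoc, ← h1, algebraMap_smul]
    rfl
  total := htot

/-- A summand dividing the sum. -/
lemma Dv.exists_dv {V : Type*} [AddCommGroup V] [Module k₀ V] {dv : V → V → Prop}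
    (h : Dv k₀ dv) {q : ℕ} (c : Fin q → k₀) (v : Fin q → V) (hne : ∑ i, c i • v i ≠ 0) :
    ∃ i, c i ≠ 0 ∧ v i ≠ 0 ∧ dv (v i) (∑ i, c i • v i) := by
  classical
  have hN : Nonempty {i // c i ≠ 0 ∧ v i ≠ 0} := by
    by_contra hcon
    rw [not_nonempty_iff] at hcon
    apply hne
    refine Finset.sum_eq_zero fun i _ => ?_
    by_cases h1 : c i = 0
    · rw [h1, zero_smul]
    · by_cases h2 : v i = 0
      · rw [h2, smul_zero]
      · exact (hcon.false ⟨i, h1, h2⟩).elim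
  obtain ⟨⟨i0, h1, h2⟩, hmin⟩ := Pool.Agent.W349.WD.Sum.exists_min
    (fun i j : {i // c i ≠ 0 ∧ v i ≠ 0} => dv (v i.1) (v j.1)) (fun i j => h.total _ _)
    (fun i j l => h.trans _ _ _)
  refine ⟨i0, h1, h2, h.sum _ _ _ fun i _ => ?_⟩
  by_cases h3 : c i = 0
  · rw [h3, zero_smul]
    exact h.zero _
  · by_cases h4 : v i = 0
    · rw [h4, smul_zero]
      exact h.zero _
    · exact h.smul _ _ _ (hmin ⟨i, h3, h4⟩)

end dv

end Pool.Agent.Helper50.Quad
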