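import Pool.Agent.Helper50.Quad.Adapt

/-!
# Sums of products of two elements of a finite space of functions
-/

set_option autoImplicit false

open Module

namespace Pool.Agent.Helper50.Quad

section form

variable {k₀ K : Type*} [Field k₀] [Field K] [Algebra k₀ K] {V : Submodule k₀ K} {q s : ℕ}

/-- The gradient of the sum of the products `v t * v' t` with respect to the basis `b`. -/
noncomputable def gradV (b : Basis (Fin q) k₀ V) (v v' : Fin s → V) (i : Fin q) : V :=
  ∑ t, (b.repr (v t) i • v' t + b.repr (v' t) i • v t)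

/-- The coefficients. -/
noncomputable def cf (b : Basis (Fin q) k₀ V) (v v' : Fin s → V) (i j : Fin q) : k₀ :=
  ∑ t, b.repr (v t) i * b.repr (v' t) j

variable (b : Basis (Fin q) k₀ V) (v v' : Fin s → V)

lemma grad_repr (i j : Fin q) : b.repr (gradV b v v' i) j = cf b v v' i j + cf b v v' j i := by
  unfold gradV cf
  rw [map_sum, Finsupp.finsetSum_apply, ← Finset.sum_add_distrib]
  refine Finset.sum_congr rfl fun t _ => ?_
  rw [map_add, map_smul, map_smul, Finsupp.add_apply, Finsupp.smul_apply, Finsupp.smul_apply,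
    smul_eq_mul, smul_eq_mul]
  ring

lemma grad_symm (i j : Fin q) : b.repr (gradV b v v' i) j = b.repr (gradV b v v' j) i := by
  rw [grad_repr, grad_repr, add_comm]

/-- Change of the basis. -/
lemma grad_basis {q' : ℕ} (b' : Basis (Fin q') k₀ V) (i : Fin q) :
    gradV b v v' i = ∑ i', b.repr (b' i') i • gradV b' v v' i' := by
  have h1 : ∀ w : V, b.repr w i = ∑ i', b.repr (b' i') i * b'.repr w i' := by
    intro w
    conv_lhs => rw [← b'.sum_repr w]
    rw [map_sum, Finsupp.finsetSum_apply]
    refine Finset.sum_congr rfl fun i' _ => ?_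
    rw [map_smul, Finsupp.smul_apply, smul_eq_mul, mul_comm]
  unfold gradV
  simp only [Finset.smul_sum]
  rw [Finset.sum_comm]
  refine Finset.sum_congr rfl fun t _ => ?_
  rw [h1 (v t), h1 (v' t), Finset.sum_smul, Finset.sum_smul, ← Finset.sum_add_distrib]
  refine Finset.sum_congr rfl fun i' _ => ?_
  rw [smul_add, mul_smul, mul_smul]

lemma sum_prod : ∑ t, (v t : K) * v' t = ∑ i, ∑ j, cf b v v' i j • ((b i : K) * b j) := by
  have h1 : ∀ w : V, (w : K) = ∑ i, b.repr w i • (b i : K) := by
    intro w
    have h2 := congrArg V.subtype (b.sum_repr w)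
    rw [map_sum] at h2
    have h3 : V.subtype w = (w : K) := rfl
    rw [h3] at h2
    rw [← h2]
    refine Finset.sum_congr rfl fun i _ => ?_
    rw [map_smul]
    rfl
  have h2 : ∀ t, (v t : K) * v' t = ∑ i, ∑ j, (b.repr (v t) i * b.repr (v' t) j) •
      ((b i : K) * b j) := by
    intro t
    rw [h1 (v t), h1 (v' t), Finset.sum_mul_sum]
    refine Finset.sum_congr rfl fun i _ => Finset.sum_congr rfl fun j _ => ?_
    rw [smul_mul_smul_comm]
  rw [Finset.sum_congr rfl fun t _ => h2 t, Finset.sum_comm]
  refine Finset.sum_congr rfl fun i _ => ?_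
  rw [Finset.sum_comm]
  refine Finset.sum_congr rfl fun j _ => ?_
  unfold cf
  rw [Finset.sum_smul]

variable (p : ℕ) [Fact p.Prime] [Finite k₀] [CharP k₀ p] [CharP K p]

/-- Removal of the `p`-th powers. -/
theorem expand (P : Fin q → Prop) (hP : ∀ i, P i → ∃ β : K, β ^ p = b i) :
    ∃ (a0 : K) (Q : Fin q → Fin q → k₀),
      ∑ t, (v t : K) * v' t = a0 ^ p + ∑ i, ∑ j, Q i j • ((b i : K) * b j) ∧
      (∀ i j, Q i j ≠ 0 → (¬ P i ∧ b.repr (gradV b v v' i) j ≠ 0) ∨
        (¬ P j ∧ b.repr (gradV b v v' j) i ≠ 0)) ∧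
      ∀ i, ¬ P i → ∀ j, Q i j + Q j i = b.repr (gradV b v v' i) j := by
  classical
  have hp : p.Prime := Fact.out
  let C := cf b v v'
  let χ : Fin q → Fin q → Prop := fun i j => (P i ∧ P j) ∨ (p = 2 ∧ i = j)
  let Q0 : Fin q → Fin q → k₀ := fun i j => if i ≤ j then C i j + (if i < j then C j i else 0) else 0
  let Q : Fin q → Fin q → k₀ := fun i j => if χ i j then 0 else Q0 i j
  have hroot : ∀ c : k₀, ∃ m : k₀, m ^ p = c := by
    intro c
    have h1 : Function.Surjective (frobenius k₀ p) :=
      Finite.surjective_of_injective (frobenius_inj k₀ p)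
    obtain ⟨b, hb⟩ := h1 c
    exact ⟨b, hb⟩
  -- the sum over the ordered pairs
  have hsum : ∑ i, ∑ j, C i j • ((b i : K) * b j) = ∑ i, ∑ j, Q0 i j • ((b i : K) * b j) := by
    have h1 : ∀ i j, C i j • ((b i : K) * b j) =
        (if i ≤ j then C i j • ((b i : K) * b j) else 0) +
          (if j < i then C i j • ((b i : K) * b j) else 0) := by
      intro i j
      by_cases hij : i ≤ j
      · rw [if_pos hij, if_neg (not_lt.2 hij), add_zero]
      · rw [if_neg hij, if_pos (not_le.1 hij), zero_add]
    have h2 : ∀ i j, Q0 i j • ((b i : K) * b j) =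
        (if i ≤ j then C i j • ((b i : K) * b j) else 0) +
          (if i < j then C j i • ((b j : K) * b i) else 0) := by
      intro i j
      by_cases hij : i ≤ j
      · by_cases hij' : i < j
        · simp only [Q0, if_pos hij, if_pos hij', add_smul]
          rw [mul_comm (b j : K)]
        · simp only [Q0, if_pos hij, if_neg hij', add_smul, zero_smul]
      · have hij' : ¬ i < j := fun h => hij h.le
        simp only [Q0, if_neg hij, if_neg hij', zero_smul, add_zero]
    rw [Finset.sum_congr rfl fun i _ => Finset.sum_congr rfl fun j _ => h1 i j,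
      Finset.sum_congr (f := fun i => ∑ j, Q0 i j • ((b i : K) * b j)) rfl
        fun i _ => Finset.sum_congr rfl fun j _ => h2 i j]
    simp only [Finset.sum_add_distrib]
    congr 1
    rw [Finset.sum_comm]
  have hpow : ∀ i j, ∃ a : K, Q0 i j • ((b i : K) * b j) = a ^ p + Q i j • ((b i : K) * b j) := by
    intro i j
    by_cases hχ : χ i j
    · have hQ : Q i j = 0 := if_pos hχ
      rw [hQ, zero_smul]
      obtain ⟨m, hm⟩ := hroot (Q0 i j)
      rcases hχ with ⟨h1, h2⟩ | ⟨h1, h2⟩
      · obtain ⟨β, hβ⟩ := hP i h1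
        obtain ⟨β', hβ'⟩ := hP j h2
        refine ⟨algebraMap k₀ K m * (β * β'), ?_⟩
        rw [mul_pow, mul_pow, hβ, hβ', ← map_pow, hm, add_zero, Algebra.smul_def]
      · refine ⟨algebraMap k₀ K m * b i, ?_⟩
        subst h1
        rw [mul_pow, ← map_pow, hm, add_zero, Algebra.smul_def, h2, sq]
    · have hQ : Q i j = Q0 i j := if_neg hχ
      refine ⟨0, ?_⟩
      rw [hQ, zero_pow hp.ne_zero, zero_add]
  choose a ha using hpow
  refine ⟨∑ i, ∑ j, a i j, Q, ?_, ?_, ?_⟩
  · rw [sum_prod b v v']
    change ∑ i, ∑ j, C i j • ((b i : K) * b j) = _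
    rw [hsum, sum_pow_char]
    simp only [sum_pow_char]
    rw [← Finset.sum_add_distrib]
    refine Finset.sum_congr rfl fun i _ => ?_
    rw [← Finset.sum_add_distrib]
    exact Finset.sum_congr rfl fun j _ => ha i j
  · intro i j hQ
    have hχ : ¬ χ i j := fun h => hQ (if_pos h)
    have hQ0 : Q0 i j ≠ 0 := fun h => hQ (by
      change (if χ i j then 0 else Q0 i j) = 0
      rw [if_neg hχ, h])
    have hij : i ≤ j := by
      by_contra hij
      exact hQ0 (if_neg hij)
    have hD : cf b v v' i j + cf b v v' j i ≠ 0 := by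
      by_cases hlt : i < j
      · intro h0
        apply hQ0
        change (if i ≤ j then C i j + (if i < j then C j i else 0) else 0) = 0
        rw [if_pos hij, if_pos hlt]
        exact h0
      · have heq : i = j := le_antisymm hij (not_lt.1 hlt)
        subst heq
        have hp2 : p ≠ 2 := fun h => hχ (Or.inr ⟨h, rfl⟩)
        have h2 : (2 : k₀) ≠ 0 := by
          intro h0
          have h3 : ((2 : ℕ) : k₀) = 0 := by exact_mod_cast h0
          have h4 := (CharP.cast_eq_zero_iff k₀ p 2).1 h3
          exact hp2 ((Nat.prime_dvd_prime_iff_eq hp Nat.prime_two).1 h4)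
        have h3 : C i i ≠ 0 := by
          intro h0
          apply hQ0
          change (if i ≤ i then C i i + (if i < i then C i i else 0) else 0) = 0
          rw [if_pos le_rfl, if_neg (lt_irrefl i), h0, add_zero]
        rw [← two_mul]
        exact mul_ne_zero h2 h3
    have hPij : ¬ P i ∨ ¬ P j := by
      by_contra hcon
      push Not at hcon
      exact hχ (Or.inl hcon)
    rcases hPij with h1 | h1
    · exact Or.inl ⟨h1, by rw [grad_repr]; exact hD⟩
    · exact Or.inr ⟨h1, by rw [grad_repr, add_comm]; exact hD⟩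
  · intro i hi j
    rw [grad_repr]
    rcases lt_trichotomy i j with hlt | heq | hgt
    · have h1 : ¬ χ i j := by
        rintro (⟨h, -⟩ | ⟨-, h⟩)
        · exact hi h
        · exact hlt.ne h
      have h2 : Q i j = C i j + C j i := by
        change (if χ i j then 0 else if i ≤ j then C i j + (if i < j then C j i else 0) else 0) = _
        rw [if_neg h1, if_pos hlt.le, if_pos hlt]
      have h3 : Q j i = 0 := by
        change (if χ j i then 0 else if j ≤ i then C j i + (if j < i then C i j else 0) else 0) = _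
        rw [if_neg (not_le.2 hlt), ite_self]
      rw [h2, h3, add_zero]
    · subst heq
      by_cases hp2 : p = 2
      · have h2 : Q i i = 0 := if_pos (Or.inr ⟨hp2, rfl⟩)
        have h3 : (2 : k₀) = 0 := by
          have h4 : ((2 : ℕ) : k₀) = 0 := by rw [← hp2]; exact CharP.cast_eq_zero k₀ p
          exact_mod_cast h4
        rw [h2, add_zero, ← two_mul, h3, zero_mul]
      · have h1 : ¬ χ i i := by
          rintro (⟨h, -⟩ | ⟨h, -⟩)
          · exact hi h
          · exact hp2 h
        have h2 : Q i i = C i i := by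
          change (if χ i i then 0 else if i ≤ i then C i i + (if i < i then C i i else 0) else 0)
            = _
          rw [if_neg h1, if_pos le_rfl, if_neg (lt_irrefl i), add_zero]
        rw [h2]
    · have h1 : ¬ χ j i := by
        rintro (⟨-, h⟩ | ⟨-, h⟩)
        · exact hi h
        · exact hgt.ne h
      have h2 : Q j i = C j i + C i j := by
        change (if χ j i then 0 else if j ≤ i then C j i + (if j < i then C i j else 0) else 0) = _
        rw [if_neg h1, if_pos hgt.le, if_pos hgt]
      have h3 : Q i j = 0 := by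
        change (if χ i j then 0 else if i ≤ j then C i j + (if i < j then C j i else 0) else 0) = _
        rw [if_neg (not_le.2 hgt), ite_self]
      rw [h2, h3, zero_add, add_comm]

/-- If the sum is not a `p`-th power then a component of the gradient does not vanish. -/
lemma exists_grad (P : Fin q → Prop) (hP : ∀ i, P i → ∃ β : K, β ^ p = b i)
    (hf : ¬ ∃ a : K, a ^ p = ∑ t, (v t : K) * v' t) :
    ∃ i, ¬ P i ∧ gradV b v v' i ≠ 0 := by
  by_contra hcon
  push Not at hcon
  obtain ⟨a0, Q, h1, h2, -⟩ := expand b v v' p P hP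
  refine hf ⟨a0, ?_⟩
  rw [h1]
  have h3 : ∀ i j, Q i j = 0 := by
    intro i j
    by_contra h0
    rcases h2 i j h0 with ⟨h3, h4⟩ | ⟨h3, h4⟩
    · rw [hcon i h3] at h4
      simp at h4
    · rw [hcon j h3] at h4
      simp at h4
  simp [h3]

end form

section comb

/-- The differential in the direction of a basis vector. -/
lemma sum_dir {κ : Type*} [Field κ] {q : ℕ} (Q F : Fin q → Fin q → κ) (hF : ∀ i j, F i j = F j i)
    (i0 : Fin q) (α : κ) (a : Fin q → κ) (ha0 : a i0 = α) (ha : ∀ i, i ≠ i0 → a i = 0) :
    ∑ i, ∑ j, Q i j * (F i j * (a i + a j)) = α * ∑ j, (Q i0 j + Q j i0) * F i0 j := by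
  have h1 : ∑ i, ∑ j, Q i j * (F i j * (a i + a j)) =
      (∑ i, ∑ j, Q i j * (F i j * a i)) + ∑ i, ∑ j, Q i j * (F i j * a j) := by
    rw [← Finset.sum_add_distrib]
    refine Finset.sum_congr rfl fun i _ => ?_
    rw [← Finset.sum_add_distrib]
    refine Finset.sum_congr rfl fun j _ => ?_
    ring
  have h2 : ∑ i, ∑ j, Q i j * (F i j * a i) = ∑ j, Q i0 j * (F i0 j * α) := by
    rw [Finset.sum_eq_single i0]
    · rw [ha0]
    · intro i _ hi
      refine Finset.sum_eq_zero fun j _ => ?_
      rw [ha i hi]
      ring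
    · intro h
      exact absurd (Finset.mem_univ _) h
  have h3 : ∑ i, ∑ j, Q i j * (F i j * a j) = ∑ j, Q j i0 * (F j i0 * α) := by
    refine Finset.sum_congr rfl fun i _ => ?_
    rw [Finset.sum_eq_single i0]
    · rw [ha0]
    · intro j _ hj
      rw [ha j hj]
      ring
    · intro h
      exact absurd (Finset.mem_univ _) h
  rw [h1, h2, h3, ← Finset.sum_add_distrib, Finset.mul_sum]
  refine Finset.sum_congr rfl fun j _ => ?_
  rw [hF j i0]
  ring

end comb

end Pool.Agent.Helper50.Quad
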