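import Pool.Agent.Helper50.Quad.Vec

/-!
# Joint normal forms with a sum of products of two elements of a finite space
-/

set_option autoImplicit false
set_option linter.unusedVariables false
set_option linter.unusedSectionVars false

universe u

open Finsupp Module Pool.Agent.W558 Pool.Agent.W177.WD Pool.Agent.TH214 Pool.Agent.TH214.V
  Pool.Agent.Helper50.Add

namespace Pool.Agent.Helper50.Quad

section gm

variable {r s : ℕ} {B : Type} [Fintype B] [DecidableEq B] {ι : Type}
  {k₀ : Type*} {k K : Type u} [Field k₀] [Finite k₀] [Field k] [Field K] [Algebra k₀ k]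
  [Algebra k K] [Algebra k₀ K] [IsScalarTower k₀ k K] {p : ℕ} [Fact p.Prime] [CharP k p]
  [CharP k₀ p] [CharP K p]

/-- The exponents of the single elements and of the products. -/
def eX (B : Type) [DecidableEq B] (r : ℕ) : Fin r ⊕ Fin r × Fin r → B ⊕ Fin r → ℤ :=
  Sum.elim (fun i => Pi.single (Sum.inr i) 1)
    (fun ij => Pi.single (Sum.inr ij.1) 1 + Pi.single (Sum.inr ij.2) 1)

lemma gm_single {I : Type} [Fintype I] {J : Type} [Fintype J] [DecidableEq J] (Z : J → I → ℤ)
    (j : J) : gm Z 0 (Pi.single j 1) = Z j := by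
  funext i
  unfold gm
  rw [Pi.zero_apply, zero_add, Finset.sum_eq_single j]
  · rw [Pi.single_eq_same, one_mul]
  · intro j' _ hj'
    rw [Pi.single_eq_of_ne hj', zero_mul]
  · intro h
    exact absurd (Finset.mem_univ _) h

lemma gm_add {I : Type} [Fintype I] {J : Type} [Fintype J] (Z : J → I → ℤ)
    (m m' : J → ℤ) : gm Z 0 (m + m') = gm Z 0 m + gm Z 0 m' := by
  funext i
  unfold gm
  rw [Pi.add_apply]
  simp only [Pi.zero_apply, zero_add, Pi.add_apply, add_mul, Finset.sum_add_distrib]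

/-- The joint normal form. -/
theorem gm_quad {f : ι → K} {u : B → K} {y : Fin r → K} {V : Submodule k₀ K}
    [FiniteDimensional k₀ V] (hyV : ∀ i, y i ∈ V) (hys : ∀ v ∈ V, v ≠ 0 → ∃ i, y i = v)
    (v v' : Fin s → V) (hf : ¬ ∃ a : K, a ^ p = ∑ t, (v t : K) * v' t)
    {σ : Type} (ε : σ ≃ Sg p (k₀ := k₀) y)
    (h : GMG p k f (Sum.elim u y) (fun q => q.isRight = true)
      (fun e => Gs (k₀ := k₀) (k := k) p B y (ε e)) (eX B r)) :
    GM p k (Sum.elim f (fun _ : Unit => ∑ t, (v t : K) * v' t)) (Sum.elim u y) := by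
  classical
  have hp : p.Prime := Fact.out
  obtain ⟨T, I, hT, hI, M, n, a, hh, Z0, hN, hFn, hFr, hC, hD⟩ := h
  let Z : Fin r → I → ℤ := fun j => Z0 (Sum.inr j)
  have hx0 := M.x0
  have hxA := M.xA
  have hmon : ∀ t j, IsMon (M.A t) (M.x t) (y j) (Z j) := fun t j => hFn (Sum.inr j) t
  have hc : ∀ t i j, LeN (M.A t) (M.x t) (Z i) (Z j) ∨ LeN (M.A t) (M.x t) (Z j) (Z i) := by
    intro t i j
    have h1 := hC (Sum.inl i) (Sum.inl j) t
    simp only [eX, Sum.elim_inl, gm_single] at h1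
    exact h1
  have hc2 : ∀ t i j i' j', LeN (M.A t) (M.x t) (Z i + Z j) (Z i' + Z j') ∨
      LeN (M.A t) (M.x t) (Z i' + Z j') (Z i + Z j) := by
    intro t i j i' j'
    have h1 := hC (Sum.inr (i, j)) (Sum.inr (i', j')) t
    simp only [eX, Sum.elim_inr, gm_add, gm_single] at h1
    exact h1
  choose q b P i0 hch using fun t => exists_chart (p := p) (hxA t) (hx0 t) (hmon t) (hc t) (hc2 t)
    hys v v' hf
  let γ : T → I → ℤ := fun t => zx y Z (b t (i0 t) : K) + zx y Z (gradV (b t) v v' (i0 t) : K)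
  let NF : I → ℤ := fun a => if h : ∃ t, (M.x t a)⁻¹ ∉ M.A t then γ h.choose a else 0
  have hNF : ∀ t a, NF a = γ t a ∨ (M.x t a)⁻¹ ∈ M.A t := by
    intro t a
    by_cases ha : (M.x t a)⁻¹ ∈ M.A t
    · exact Or.inr ha
    · left
      have hex : ∃ t, (M.x t a)⁻¹ ∉ M.A t := ⟨t, ha⟩
      have h1 : NF a = γ hex.choose a := dif_pos hex
      rw [h1]
      refine le_antisymm ?_ ?_
      · exact indep_chart (hxA t) (hx0 t) (hmon t) (hc t) (hxA _) (hx0 _) (hmon _)
          (hc _) (hc2 _) hys (hch t) (hch hex.choose) ha hex.choose_spec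
      · exact indep_chart (hxA _) (hx0 _) (hmon _) (hc _) (hxA t) (hx0 t) (hmon t) (hc t)
          (hc2 t) hys (hch hex.choose) (hch t) hex.choose_spec ha
  have hroot : ∀ t i, P t i → ∃ β : K, β ^ p = b t i := by
    intro t i hi
    obtain ⟨-, u, -, hu⟩ := (hch t).pw i hi
    exact ⟨u, hu⟩
  choose a0 Q hexp hQ hQ2 using fun t => expand (b t) v v' p (P t) (hroot t)
  have hpv := fun t (κ : Type u) [Field κ] [Algebra k κ] (φ : M.A t →ₐ[k] κ) =>
    point_vec (φ := φ) (hxA t) (hx0 t) (hmon t) (hc2 t) hys (hch t) (hNF t) (Q t) (hQ t) (hQ2 t)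
  let g : T → K := fun t => (∑ i, ∑ j, Q t i j • ((b t i : K) * b t j)) *
    ∏ i, M.x t i ^ (-NF i)
  have hgA : ∀ t, g t ∈ M.A t := fun t => (hpv t K (M.A t).val).1
  have hFv : ∀ t (κ : Type u) [Field κ] [Algebra k κ] (φ : M.A t →ₐ[k] κ),
      ∃ V' : LT φ (M.x t), (∀ l, om V' (n l) (hN.hA t l) = 0) ∧ om V' NF (hgA t) ≠ 0 := by
    intro t κ _ _ φ
    choose w w0 wA wi hw using fun j => hFn j t
    obtain ⟨hvl, hD2⟩ := hD t κ φ w wA w0 wi hw
    let l0 := ls φ (hxA t) Z0
    let ζ := zp φ (hxA t) wA Z0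
    have hζ : ∀ j, ζ j ≠ 0 := zp_ne φ (hxA t) Z0 w0 wA wi
    have hvl' : ∀ e, vl (Gs (k₀ := k₀) (k := k) p B y e) l0 ζ = 0 := by
      intro e
      have h1 := hvl (ε.symm e)
      simp only [ε.apply_symm_apply] at h1
      exact h1
    choose l hl using fun i => hys (b t i) (b t i).2
      (fun h => (b t).ne_zero i (Subtype.ext h))
    let c0 : Fin r → k₀ := fun j => (b t).repr ⟨y j, hyV j⟩ (i0 t)
    let L := l0 (Sum.inr (l (i0 t)))
    let α : Fin r → κ := fun j => if l0 (Sum.inr j) = L then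
      (ζ (Sum.inr j))⁻¹ * algebraMap k κ (algebraMap k₀ k (c0 j)) else 0
    have hαe : ∀ j, α j = if l0 (Sum.inr j) = L then
      (ζ (Sum.inr j))⁻¹ * algebraMap k κ (algebraMap k₀ k (c0 j)) else 0 := fun j => rfl
    have hα : ∀ j, ζ (Sum.inr j) * α j =
        if l0 (Sum.inr j) = L then algebraMap k κ (algebraMap k₀ k (c0 j)) else 0 := by
      intro j
      rw [hαe]
      split_ifs
      · rw [mul_inv_cancel_left₀ (hζ _)]
      · rw [mul_zero]
    have htan := dir_tan (B := B) (k₀ := k₀) (k := k) (g := y) l0 ζ hζ hvl' c0 (by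
      intro c hc
      have h1 : ∑ i ∈ c.support, c i • (⟨y i, hyV i⟩ : V) = 0 := by
        apply Subtype.ext
        rw [linearCombination_apply, Finsupp.sum] at hc
        rw [← Submodule.subtype_apply, map_sum]
        exact hc
      have h2 := congrArg (fun w => (b t).repr w (i0 t)) h1
      simp only [map_sum, Finsupp.finsetSum_apply, map_smul, Finsupp.smul_apply, map_zero,
        Finsupp.zero_apply, smul_eq_mul] at h2
      exact h2) (by
      intro i j hij
      refine (hch t).np _ ?_ _ (hch t).ni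
      exact ⟨hyV j, y i, hyV i, hij.symm⟩) L (by
      intro j hj
      have h1 : LeN (M.A t) (M.x t) (Z j) (Z (l (i0 t))) := by
        refine dvd_le (hxA t) (hx0 t) (hmon t j) (hmon t _) (hc t _ _) ?_
        rw [hl]
        exact (hch t).ad _ _ hj
      change ∑ i ∈ _, Z0 (Sum.inr j) i ≤ ∑ i ∈ _, Z0 (Sum.inr (l (i0 t))) i
      refine Finset.sum_le_sum fun i hi => ?_
      exact (h1 i).resolve_right (not_unit φ (hxA t) (hx0 t) (Finset.mem_filter.1 hi).2)) α hα
    obtain ⟨V', hV1, hV2⟩ := hD2 (dirE α) (by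
      rintro (j | j) hj
      · rfl
      · exact absurd rfl hj) fun e => htan _
    refine ⟨V', fun j => hV1 j _, ?_⟩
    have hli : ∀ i, (⟨y (l i), hyV (l i)⟩ : V) = b t i := fun i => Subtype.ext (hl i)
    refine (hpv t κ φ).2 V' l hl (fun i => α (l i)) (fun i => hV2 (Sum.inr (l i))) ?_ ?_ (hgA t)
    · have h1 : c0 (l (i0 t)) = 1 := by
        change (b t).repr ⟨y (l (i0 t)), hyV (l (i0 t))⟩ (i0 t) = 1
        rw [hli, Basis.repr_self, Finsupp.single_eq_same]
      rw [hαe, if_pos rfl, h1, map_one, map_one, mul_one]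
      exact inv_ne_zero (hζ _)
    · intro i hi
      have h1 : c0 (l i) = 0 := by
        change (b t).repr ⟨y (l i), hyV (l i)⟩ (i0 t) = 0
        rw [hli, Basis.repr_self, Finsupp.single_eq_of_ne hi.symm]
      rw [hαe, h1, map_zero, map_zero, mul_zero, ite_self]
  refine ⟨T, I, hT, hI, M, Sum.elim n (fun _ => NF), fun t => Sum.elim (a t) (fun _ => a0 t),
    fun t => Sum.elim (hh t) (fun _ => g t), Z0, ⟨?_, ?_, ?_⟩, hFn, hFr⟩
  · rintro t (j | j)
    · exact hN.hA t j
    · exact hgA t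
  · rintro t (j | j)
    · exact hN.eq t j
    · change ∑ t, (v t : K) * v' t = a0 t ^ p + (∏ i, M.x t i ^ NF i) * g t
      have h1 : (∏ i, M.x t i ^ NF i) * ∏ i, M.x t i ^ (-NF i) = 1 := by
        rw [← Finset.prod_mul_distrib]
        refine Finset.prod_eq_one fun i _ => ?_
        rw [← zpow_add₀ (hx0 t i), add_neg_cancel, zpow_zero]
      rw [hexp t, mul_left_comm, h1, mul_one]
  · rintro t κ _ _ φ (j | j)
    · obtain ⟨v0, h1, h2⟩ := hN.ln t κ φ j
      obtain ⟨V', h3, h4⟩ := hFv t κ φ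
      refine ⟨ltAdd v0 V' (-(om v0 NF (hgA t) / om V' NF (hgA t))), ?_, ?_⟩
      · change om _ (n j) (hN.hA t j) ≠ 0
        rw [om_ltAdd, h3 j, mul_zero, add_zero]
        exact h1
      · rintro (l | l) hl
        · change om _ (n l) (hN.hA t l) = 0
          rw [om_ltAdd, h3 l, mul_zero, add_zero]
          exact h2 l fun h => hl (by rw [h])
        · change om _ NF (hgA t) = 0
          rw [om_ltAdd, neg_mul, div_mul_cancel₀ _ h4, add_neg_cancel]
    · obtain ⟨V', h3, h4⟩ := hFv t κ φ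
      refine ⟨V', h4, ?_⟩
      rintro (l | l) hl
      · exact h3 l
      · exact absurd rfl hl

end gm

end Pool.Agent.Helper50.Quad
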