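import Pool.Agent.Helper50.Quad.Base

/-!
# Models of the purely inseparable covers
-/

set_option autoImplicit false
set_option linter.unusedVariables false
set_option linter.unusedSectionVars false

universe u

open Finsupp Module Pool.Agent.W558 Pool.Agent.TH214 Pool.Agent.TH214.V Pool.Agent.TH214.SD
  Pool.Agent.Helper50.Add Pool.Agent.TH188.WP Pool.Agent.TH188.WQ Pool.Agent.TH188.VT
  Pool.Agent.TH188.VQ Pool.Agent.W558.WT AlgebraicGeometry CategoryTheory

namespace Pool.Agent.Helper50.Quad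

section main

variable {p : ℕ} [Fact p.Prime] {k K : Type u} [Field k] [PerfectField k] [CharP k p] [Field K]
  [Algebra k K] {m n h d c q s l r o : ℕ} {E : Fin m → IntermediateField k K} {x : Fin l → K}
  {u : Fin h → K} {y : Fin n → K} {G : Fin q → (Fin h ⊕ Fin n → ℤ) →₀ k} {ρ : Fin d → Fin n}

/-- The `p`-polynomials in a subfield. -/
lemma pPoly_sub {K1 : Type u} [Field K1] [Algebra k K1] (φ : K1 →ₐ[k] K) (x' : Fin l → K1)
    (hx : ∀ i, φ (x' i) = x i) {b : K} (hb : b ∈ pPolynomials p k x) :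
    ∃ b' ∈ pPolynomials p k x', φ b' = b := by
  refine AddSubgroup.closure_induction (p := fun b _ => ∃ b' ∈ pPolynomials p k x', φ b' = b)
    ?_ ?_ ?_ ?_ hb
  · rintro b ⟨a, ha, rfl | ⟨i, j, rfl⟩⟩
    · exact ⟨algebraMap k K1 a, AddSubgroup.subset_closure ⟨a, ha, Or.inl rfl⟩, φ.commutes a⟩
    · refine ⟨algebraMap k K1 a * x' i ^ p ^ j,
        AddSubgroup.subset_closure ⟨a, ha, Or.inr ⟨i, j, rfl⟩⟩, ?_⟩
      rw [map_mul, map_pow, φ.commutes, hx]
  · exact ⟨0, AddSubgroup.zero_mem _, map_zero φ⟩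
  · rintro a b _ _ ⟨a', ha, rfl⟩ ⟨b', hb, rfl⟩
    exact ⟨a' + b', AddSubgroup.add_mem _ ha hb, map_add φ a' b'⟩
  · rintro a _ ⟨a', ha, rfl⟩
    exact ⟨-a', AddSubgroup.neg_mem _ ha, map_neg φ a'⟩

lemma pQuad_sub {K1 : Type u} [Field K1] [Algebra k K1] (φ : K1 →ₐ[k] K) (x' : Fin l → K1)
    (hx : ∀ i, φ (x' i) = x i) {b : K} (hb : b ∈ pQuadratics p k x) :
    ∃ b' ∈ pQuadratics p k x', φ b' = b := by
  refine AddSubgroup.closure_induction (p := fun b _ => ∃ b' ∈ pQuadratics p k x', φ b' = b)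
    ?_ ?_ ?_ ?_ hb
  · rintro b ⟨g, hg, g', hg', rfl⟩
    obtain ⟨a, ha, rfl⟩ := pPoly_sub φ x' hx hg
    obtain ⟨a', ha', rfl⟩ := pPoly_sub φ x' hx hg'
    exact ⟨a * a', AddSubgroup.subset_closure ⟨a, ha, a', ha', rfl⟩, map_mul φ a a'⟩
  · exact ⟨0, AddSubgroup.zero_mem _, map_zero φ⟩
  · rintro a b _ _ ⟨a', ha, rfl⟩ ⟨b', hb, rfl⟩
    exact ⟨a' + b', AddSubgroup.add_mem _ ha hb, map_add φ a' b'⟩
  · rintro a _ ⟨a', ha, rfl⟩
    exact ⟨-a', AddSubgroup.neg_mem _ ha, map_neg φ a'⟩

lemma pProd_sub {K1 : Type u} [Field K1] [Algebra k K1] (φ : K1 →ₐ[k] K) (x' : Fin l → K1)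
    (hx : ∀ i, φ (x' i) = x i) {b : K} (hb : IsPolynomialProduct p k x b) :
    ∃ b', IsPolynomialProduct p k x' b' ∧ φ b' = b := by
  refine Submonoid.closure_induction (motive := fun b _ =>
    ∃ b', IsPolynomialProduct p k x' b' ∧ φ b' = b) ?_ ?_ ?_ hb
  · rintro g ⟨hg0, hg | hg⟩
    · obtain ⟨a, ha, rfl⟩ := pPoly_sub φ x' hx hg
      exact ⟨a, Submonoid.subset_closure ⟨fun h => hg0 (by rw [h, map_zero]), Or.inl ha⟩, rfl⟩
    · obtain ⟨a, ha, hag⟩ := pPoly_sub φ x' hx hg
      refine ⟨a⁻¹, Submonoid.subset_closure ⟨fun h => ?_, Or.inr (by rw [inv_inv]; exact ha)⟩, ?_⟩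
      · rw [inv_eq_zero.1 h, map_zero] at hag
        exact hg0 (inv_eq_zero.1 hag.symm)
      · rw [map_inv₀, hag, inv_inv]
  · exact ⟨1, Submonoid.one_mem _, map_one φ⟩
  · rintro a b _ _ ⟨a', ha, rfl⟩ ⟨b', hb, rfl⟩
    exact ⟨a' * b', Submonoid.mul_mem _ ha hb, map_mul φ a' b'⟩

/-- Models of the extensions by `p`-th roots over the field generated by the `x i`. -/
theorem quad_final {K0 : Type u} [Field K0] [Algebra k K0] [Algebra K0 K] [IsScalarTower k K0 K]
    {d1 : ℕ} (hd1 : Algebra.trdeg k K0 = d1) {ι B S : Type} [Fintype ι] [Fintype B] [Finite S]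
    {F0 : ι → K0} {g0 : B → K0} (hGM0 : GM p k F0 g0) (hind : AlgebraicIndependent K0 x) {f : K}
    (hf : f ∈ pQuadratics p k x) (bS : S → K) (hbS : ∀ b, IsPolynomialProduct p k x (bS b))
    (w : Fin r → K) (lam : Fin r → ι → k) (nu : Fin r → k)
    (hw : ∀ j, w j ^ p = algebraMap K0 K (∑ q, algebraMap k K0 (lam j q) * F0 q) + nu j • f)
    (hgen : IntermediateField.adjoin K0 (Set.range w ∪ Set.range x) = ⊤) :
    ∃ (T I : Type) (_ : Finite T) (_ : Fintype I) (M : LM (⊥ : Subalgebra k K) ⊤ T I)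
      (Γ : B ⊕ S → I → ℤ), Fn M (Sum.elim (fun b => algebraMap K0 K (g0 b)) bS) Γ ∧ Frc M := by
  classical
  have hp : p.Prime := Fact.out
  have hcK : CharP K p := charP_of_injective_algebraMap (algebraMap k K).injective p
  let K1 : IntermediateField K0 K := IntermediateField.adjoin K0 (Set.range x)
  have tL : IsScalarTower k K0 K1 := by
    refine IsScalarTower.of_algebraMap_eq fun c => Subtype.ext ?_
    exact IsScalarTower.algebraMap_apply k K0 K c
  have tK : IsScalarTower k K1 K := IsScalarTower.of_algebraMap_eq fun c => rfl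
  have hcK1 : CharP K1 p := charP_of_injective_algebraMap (algebraMap k K1).injective p
  let x' : Fin l → K1 := fun j => ⟨x j, IntermediateField.subset_adjoin _ _ ⟨j, rfl⟩⟩
  let φ : K1 →ₐ[k] K := K1.val.restrictScalars k
  have hgen1 : IntermediateField.adjoin K0 (Set.range x') = ⊤ := by
    apply IntermediateField.lift_injective K1
    rw [IntermediateField.lift_adjoin, IntermediateField.lift_top, ← Set.range_comp]
    rfl
  have hind' : AlgebraicIndependent K0 x' :=
    (K1.val.algebraicIndependent_iff K1.val.injective).1 hind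
  obtain ⟨f', hf', hff⟩ := pQuad_sub φ x' (fun _ => rfl) hf
  choose bS' hbS' hbb using fun i => pProd_sub φ x' (fun _ => rfl) (hbS i)
  obtain ⟨J2, hJ2, F2, ν, a1, hfa, hGM⟩ := gm_block hd1 hind' hgen1 hGM0 hf' bS' hbS'
  have hν : ∀ j, ∃ m : k, m ^ p = nu j := fun j => by
    obtain ⟨m, hm⟩ := (bijective_frobenius k p).2 (nu j)
    exact ⟨m, hm⟩
  choose mr hmr using hν
  let w' : Fin r → K := fun j => w j - algebraMap k K (mr j) * (a1 : K)
  have hw' : ∀ j, w' j ^ p = algebraMap K1 K (∑ q : ι ⊕ J2,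
      algebraMap k K1 (Sum.elim (lam j) (fun t => nu j * ν t) q) *
        Sum.elim (fun i => algebraMap K0 K1 (F0 i)) F2 q) := by
    intro j
    have h1 : w' j ^ p = w j ^ p - algebraMap k K (nu j) * (a1 : K) ^ p := by
      change (w j - algebraMap k K (mr j) * (a1 : K)) ^ p = _
      rw [sub_pow_char, mul_pow, ← map_pow, hmr]
    have h4 : f = algebraMap K1 K (∑ t, algebraMap k K1 (ν t) * F2 t) + (a1 : K) ^ p := by
      have h5 : φ f' = f := hff
      rw [← h5, hfa, map_add, map_pow]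
      rfl
    have h5 : nu j • f = algebraMap K1 K (∑ t, algebraMap k K1 (nu j * ν t) * F2 t) +
        algebraMap k K (nu j) * (a1 : K) ^ p := by
      rw [Algebra.smul_def, h4, mul_add]
      congr 1
      rw [IsScalarTower.algebraMap_apply k K1 K, ← map_mul, Finset.mul_sum]
      congr 1
      refine Finset.sum_congr rfl fun t _ => ?_
      rw [map_mul, mul_assoc]
    have h6 : algebraMap K0 K (∑ q, algebraMap k K0 (lam j q) * F0 q) =
        algebraMap K1 K (∑ q, algebraMap k K1 (lam j q) * algebraMap K0 K1 (F0 q)) := by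
      rw [IsScalarTower.algebraMap_apply K0 K1 K, map_sum]
      congr 1
      refine Finset.sum_congr rfl fun q _ => ?_
      rw [map_mul, ← IsScalarTower.algebraMap_apply k K0 K1]
    rw [Fintype.sum_sum_type, map_add]
    simp only [Sum.elim_inl, Sum.elim_inr]
    rw [h1, hw j, h6, h5]
    ring
  have htop : IntermediateField.adjoin K1 (Set.range w') = ⊤ := by
    rw [eq_top_iff]
    intro z _
    have h1 : z ∈ IntermediateField.adjoin K0 (Set.range w ∪ Set.range x) := by
      rw [hgen]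
      trivial
    have h2 : IntermediateField.adjoin K0 (Set.range w ∪ Set.range x) ≤
        (IntermediateField.adjoin K1 (Set.range w')).restrictScalars K0 := by
      rw [IntermediateField.adjoin_le_iff]
      rintro z (⟨j, rfl⟩ | hz)
      · have h3 : w j = w' j + algebraMap K1 K (algebraMap k K1 (mr j) * a1) := by
          change w j = (w j - algebraMap k K (mr j) * (a1 : K)) +
            algebraMap k K (mr j) * (a1 : K)
          ring
        rw [h3]
        exact (IntermediateField.adjoin K1 (Set.range w')).add_mem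
          (IntermediateField.subset_adjoin K1 _ ⟨j, rfl⟩)
          ((IntermediateField.adjoin K1 (Set.range w')).algebraMap_mem _)
      · exact (IntermediateField.adjoin K1 (Set.range w')).algebraMap_mem
          ⟨z, IntermediateField.subset_adjoin K0 _ hz⟩
    exact h2 h1
  obtain ⟨T', I', hT', hI', M', Γ', hFn, hR'⟩ := Pool.Agent.TH188.WQ.tower_add p K hGM r w'
    (fun j => Sum.elim (lam j) (fun t => nu j * ν t)) hw' htop
  refine ⟨T', I', hT', hI', M', Γ', ?_, hR'⟩
  have h1 : (fun b => algebraMap K1 K (Sum.elim (fun b => algebraMap K0 K1 (g0 b)) bS' b)) =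
      Sum.elim (fun b => algebraMap K0 K (g0 b)) bS := by
    funext b
    rcases b with b | b
    · exact (IsScalarTower.algebraMap_apply K0 K1 K (g0 b)).symm
    · exact hbb b
  rw [h1] at hFn
  exact hFn

/-- Models of the covers. -/
theorem quad_models {g : Fin o → ∀ i, E i} {F : Fin s → (Fin h ⊕ Fin n → ℤ) →₀ k} {f : K}
    {w : Fin r → K} (hK : IsQuadraticCover E p c u y G ρ g F x f w) (S : Type) [Finite S]
    (v : S → K) (hv : ∀ b, IsProductOver E p x y (v b)) :
    ∃ (T I : Type) (_ : Finite T) (_ : Fintype I) (M : LM (⊥ : Subalgebra k K) ⊤ T I)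
      (Γ : S → I → ℤ), Fn M v Γ ∧ Frc M := by
  classical
  have hp : p.Prime := Fact.out
  obtain ⟨hB, hnd, hpw, hind, hfq, hroots, hgen⟩ := hK
  have hE := hB.surfaces
  have hfS : Fintype S := Fintype.ofFinite S
  have hcK : CharP K p := charP_of_injective_algebraMap (algebraMap k K).injective p
  have htr : Algebra.trdeg k K < Cardinal.aleph0 :=
    trdeg_fin hE (X := Set.range w ∪ (Set.range x ∪ Set.range y))
      ((Set.finite_range w).union ((Set.finite_range x).union (Set.finite_range y))) (by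
        rw [Set.union_assoc, Set.union_assoc]
        exact hgen)
  choose s' bS ex hs hbS hvb using hv
  choose hu0 uu huu using hB.products
  have huu0 : ∀ a i, uu a i ≠ 0 := by
    intro a i h0
    apply hu0 a
    rw [huu a]
    exact Finset.prod_eq_zero (Finset.mem_univ i) (by rw [h0]; rfl)
  have hND := ndv_of (G := G) (F := F) (tw := fun _ => True) (c := c) (by
    intro l z hz hv
    refine ⟨hB.schon l z hz hv, fun t _ => ?_⟩
    have h1 := hnd l z hz hv t
    have h2 : {v | ∃ t', t' ≠ t ∧ (True ∨ ∃ e ∈ (F t').support, ∑ j, l j * e j ≤ 0) ∧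
        v = gv (F t') (Function.Embedding.inr : Fin n ↪ Fin h ⊕ Fin n) l z} =
        {v | ∃ t', t' ≠ t ∧ v = initialGradient (F t') l z} := by
      ext v
      constructor
      · rintro ⟨t', h3, h4, h5⟩
        exact ⟨t', h3, h5⟩
      · rintro ⟨t', h3, h5⟩
        exact ⟨t', h3, Or.inl trivial, h5⟩
    rw [h2]
    exact h1)
  -- the coefficients
  have hspan : ∀ j, ∃ (lam : Fin o → k) (mu : Fin s → k) (nu : k),
      w j ^ p = ∑ t, lam t • ∏ i, (g t i : K) + ∑ t, mu t • value (F t) u y + nu • f := by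
    intro j
    obtain ⟨c, z, hz, h1⟩ := Submodule.mem_span_insert.1 (hroots j)
    obtain ⟨z1, hz1, z2, hz2, h2⟩ := Submodule.mem_sup.1 (by rwa [Submodule.span_union] at hz)
    obtain ⟨lam, h3⟩ := (Submodule.mem_span_range_iff_exists_fun k).1 hz1
    obtain ⟨mu, h4⟩ := (Submodule.mem_span_range_iff_exists_fun k).1 hz2
    exact ⟨lam, mu, c, by rw [h1, ← h2, ← h3, ← h4, add_comm]⟩
  choose lam mu nu hlm using hspan
  let J' := {t : Fin o // ∀ i, g t i ≠ 0}
  have hlm' : ∀ j, w j ^ p = ∑ t : J', lam j t.1 • ∏ i, (g t.1 i : K) +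
      ∑ t, mu j t • value (F t) u y + nu j • f := by
    intro j
    rw [hlm j]
    congr 2
    have h1 : ∑ t, lam j t • ∏ i, (g t i : K) =
        ∑ t ∈ Finset.univ.filter (fun t => ∀ i, g t i ≠ 0), lam j t • ∏ i, (g t i : K) := by
      refine (Finset.sum_filter_of_ne fun t _ ht i hi => ht ?_).symm
      rw [Finset.prod_eq_zero (Finset.mem_univ i) (by rw [hi]; rfl), smul_zero]
    rw [h1]
    exact Finset.sum_subtype (Finset.univ.filter fun t => ∀ i, g t i ≠ 0)
      (p := fun t => ∀ i, g t i ≠ 0) (F := inferInstance) (by simp) _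
  obtain ⟨K0, _, _, _, _, d1, J1, hJ1, F1, lam1, a0, Fτ, g1, y1, hd1, hind', hEr, hg1, hy1, hFτ,
    hsum, hGM0⟩ := sch_gm' (p := p) hE htr J' (fun t => g t.1)
    (fun i t t' hne => hpw i t.1 t'.1 fun h => hne (Subtype.ext h)) (fun t => t.2) uu huu0 u huu
    y hB.ne_zero ρ hB.codimension hB.independent (Fin q) (Fin s) G F hB.equations hND
    (fun j t => lam j t.1) S s' hs hind
  have hgen' : IntermediateField.adjoin K0
      (Set.range (fun j => w j - algebraMap K0 K (a0 j)) ∪ Set.range x) = ⊤ := by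
    rw [eq_top_iff]
    intro z _
    have h1 : z ∈ IntermediateField.adjoin k
        (Set.range w ∪ (Set.range x ∪ (Set.range y ∪ ⋃ i, (E i : Set K)))) := by
      rw [hgen]
      trivial
    let N0 : IntermediateField K0 K := IntermediateField.adjoin K0
          (Set.range (fun j => w j - algebraMap K0 K (a0 j)) ∪ Set.range x)
    have h2 : IntermediateField.adjoin k
        (Set.range w ∪ (Set.range x ∪ (Set.range y ∪ ⋃ i, (E i : Set K)))) ≤
        N0.restrictScalars k := by
      rw [IntermediateField.adjoin_le_iff]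
      rintro z (⟨j, rfl⟩ | hz | ⟨j, rfl⟩ | hz)
      · have h3 : w j = (w j - algebraMap K0 K (a0 j)) + algebraMap K0 K (a0 j) := by ring
        have h4 : w j - algebraMap K0 K (a0 j) ∈ N0 :=
          IntermediateField.subset_adjoin K0 _ (Set.mem_union_left _ (Set.mem_range_self j))
        have h5 : w j ∈ N0 := by
          rw [h3]
          exact N0.add_mem h4 (N0.algebraMap_mem (a0 j))
        exact h5
      · have h4 : z ∈ N0 := IntermediateField.subset_adjoin K0 _ (Set.mem_union_right _ hz)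
        exact h4
      · have h4 : y j ∈ N0 := by
          rw [← hy1 j]
          exact N0.algebraMap_mem (y1 j)
        exact h4
      · obtain ⟨i, hi⟩ := Set.mem_iUnion.1 hz
        obtain ⟨z', rfl⟩ := hEr i z hi
        have h4 : algebraMap K0 K z' ∈ N0 := N0.algebraMap_mem z'
        exact h4
    exact h2 h1
  obtain ⟨T', I', hT', hI', M', Γ', hFn, hR'⟩ := quad_final hd1 hGM0 hind' hfq bS hbS
    (fun j => w j - algebraMap K0 K (a0 j)) (fun j => Sum.elim (lam1 j) (mu j)) nu (by
      intro j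
      change (w j - algebraMap K0 K (a0 j)) ^ p = _
      rw [sub_pow_char, hlm' j, hsum j, map_sum, Fintype.sum_sum_type]
      simp only [Sum.elim_inl, Sum.elim_inr, map_mul, ← IsScalarTower.algebraMap_apply k K0 K]
      have h3 : ∑ t, mu j t • value (F t) u y =
          ∑ t, algebraMap k K (mu j t) * algebraMap K0 K (Fτ t) := by
        refine Finset.sum_congr rfl fun t _ => ?_
        rw [Algebra.smul_def, hFτ t]
        rfl
      rw [h3]
      ring) hgen'
  -- the products
  have hmon : ∀ t, ∀ q, IsMon (M'.A t) (M'.x t) _ (Γ' q) := fun t q => hFn q t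
  have hprod : ∀ t, ∀ (q : ℕ) (z : Fin q → K) (γ : Fin q → I' → ℤ),
      (∀ j, IsMon (M'.A t) (M'.x t) (z j) (γ j)) → ∀ e : Fin q → ℤ,
      IsMon (M'.A t) (M'.x t) (∏ j, z j ^ e j) (fun i => ∑ j, e j * γ j i) := by
    intro t q z γ hz e
    choose w w0 wA wi hw using hz
    refine ⟨∏ j, w j ^ e j, Finset.prod_ne_zero_iff.2 fun j _ => zpow_ne_zero _ (w0 j),
      (M'.A t).prod_mem fun j _ => zpow_mem_of (wA j) (Or.inr (wi j)), ?_, ?_⟩
    · rw [← Finset.prod_inv_distrib]
      refine (M'.A t).prod_mem fun j _ => ?_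
      rw [← zpow_neg]
      exact zpow_mem_of (wA j) (Or.inr (wi j))
    · rw [prod_zpow_comm (M'.x t) (M'.x0 t) γ e, ← Finset.prod_mul_distrib]
      refine Finset.prod_congr rfl fun j _ => ?_
      rw [hw j, mul_zpow]
  refine ⟨T', I', hT', hI', M', fun b => Γ' (Sum.inl (Sum.inl b)) + Γ' (Sum.inr b) +
    fun i => ∑ j, ex b j * Γ' (Sum.inl (Sum.inr j)) i, ?_, hR'⟩
  intro b t
  have h1 := (((hmon t (Sum.inl (Sum.inl b))).mul (M'.x0 t) (hmon t (Sum.inr b))).mul (M'.x0 t)
    (hprod t n _ (fun j => Γ' (Sum.inl (Sum.inr j))) (fun j => hmon t (Sum.inl (Sum.inr j)))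
      (ex b)))
  simp only [Sum.elim_inl, Sum.elim_inr, hg1, hy1] at h1
  rw [hvb b]
  exact h1

end main

end Pool.Agent.Helper50.Quad
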