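import Pool.Agent.Helper50.Quad.Chart

/-!
# Normal forms of sums of products of two elements of a finite space
-/

set_option autoImplicit false
set_option linter.unusedVariables false
set_option linter.unusedSectionVars false

universe u

open Module Pool.Agent.W558 Pool.Agent.W177.WD Pool.Agent.TH214 Pool.Agent.TH214.V
  Pool.Agent.Helper50.Add

namespace Pool.Agent.Helper50.Quad

section chart

variable {p : ℕ} [Fact p.Prime] {k₀ : Type*} {k K : Type u} [Field k₀] [Finite k₀] [CharP k₀ p]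
  [Field k] [Field K] [CharP K p] [Algebra k₀ k]
  [Algebra k K] [Algebra k₀ K] [IsScalarTower k₀ k K] {V : Submodule k₀ K} {I : Type}
  [Fintype I] {r s : ℕ} {y : Fin r → K}

/-- The subspace of `p`-th powers. -/
def Wp (p : ℕ) [Fact p.Prime] {k₀ K : Type*} [Field k₀] [Finite k₀] [CharP k₀ p] [Field K]
    [CharP K p] [Algebra k₀ K] (V : Submodule k₀ K) : Submodule k₀ V :=
  (powersIn p V).comap V.subtype

/-- An adapted basis and a minimal component of the gradient. -/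
structure ChartData (p : ℕ) [Fact p.Prime] {k₀ : Type*} {k K : Type u} [Field k₀] [Finite k₀]
    [CharP k₀ p] [Field k] [Field K] [CharP K p] [Algebra k K]
    [Algebra k₀ K] (A : Subalgebra k K) (V : Submodule k₀ K) {s : ℕ} (v v' : Fin s → V) {q : ℕ}
    (b : Basis (Fin q) k₀ V) (P : Fin q → Prop) (i0 : Fin q) : Prop where
  pw : ∀ i, P i → b i ∈ Wp p V
  np : ∀ w ∈ Wp p V, ∀ i, ¬ P i → b.repr w i = 0
  ad : ∀ w i, b.repr w i ≠ 0 → dvA A V w (b i)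
  ni : ¬ P i0
  ne : gradV b v v' i0 ≠ 0
  min : ∀ i, ¬ P i → gradV b v v' i ≠ 0 →
    ∃ a ∈ A, (b i : K) * gradV b v v' i = a * ((b i0 : K) * gradV b v v' i0)

variable {A : Subalgebra k K} {x : I → K} {Z : Fin r → I → ℤ}

lemma tot_of (hxA : ∀ i, x i ∈ A) (hx0 : ∀ i, x i ≠ 0) (hmon : ∀ j, IsMon A x (y j) (Z j))
    (hc : ∀ i j, LeN A x (Z i) (Z j) ∨ LeN A x (Z j) (Z i))
    (hys : ∀ v ∈ V, v ≠ 0 → ∃ i, y i = v) (v v' : V) : dvA A V v v' ∨ dvA A V v' v := by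
  by_cases hv : v = 0
  · right
    rw [hv]
    exact ⟨0, A.zero_mem, by rw [zero_mul]; rfl⟩
  by_cases hv' : v' = 0
  · left
    rw [hv']
    exact ⟨0, A.zero_mem, by rw [zero_mul]; rfl⟩
  obtain ⟨i, hi⟩ := hys v v.2 fun h => hv (Subtype.ext h)
  obtain ⟨j, hj⟩ := hys v' v'.2 fun h => hv' (Subtype.ext h)
  rcases hc i j with h | h
  · left
    change ∃ a ∈ A, (v' : K) = a * v
    rw [← hi, ← hj]
    exact le_dvd hxA hx0 (hmon i) (hmon j) h
  · right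
    change ∃ a ∈ A, (v : K) = a * v'
    rw [← hi, ← hj]
    exact le_dvd hxA hx0 (hmon j) (hmon i) h

/-- The existence of adapted bases. -/
theorem exists_chart (hxA : ∀ i, x i ∈ A) (hx0 : ∀ i, x i ≠ 0)
    (hmon : ∀ j, IsMon A x (y j) (Z j))
    (hc : ∀ i j, LeN A x (Z i) (Z j) ∨ LeN A x (Z j) (Z i))
    (hc2 : ∀ i j i' j', LeN A x (Z i + Z j) (Z i' + Z j') ∨ LeN A x (Z i' + Z j') (Z i + Z j))
    (hys : ∀ v ∈ V, v ≠ 0 → ∃ i, y i = v) [FiniteDimensional k₀ V] (v v' : Fin s → V)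
    (hf : ¬ ∃ a : K, a ^ p = ∑ t, (v t : K) * v' t) :
    ∃ (q : ℕ) (b : Basis (Fin q) k₀ V) (P : Fin q → Prop) (i0 : Fin q),
      ChartData p A V v v' b P i0 := by
  classical
  have hfin : Finite V := Module.finite_of_finite k₀
  have hD := dvA_Dv A (tot_of hxA hx0 hmon hc hys)
  obtain ⟨q, b, P, h1, h2, h3⟩ := exists_adapted hD (Wp p V)
  have hroot : ∀ i, P i → ∃ β : K, β ^ p = b i := by
    intro i hi
    obtain ⟨-, u, -, hu⟩ := h1 i hi
    exact ⟨u, hu⟩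
  obtain ⟨i1, hi1, hi1'⟩ := exists_grad b v v' p P hroot hf
  have hN : Nonempty {i // ¬ P i ∧ gradV b v v' i ≠ 0} := ⟨⟨i1, hi1, hi1'⟩⟩
  have hb0 : ∀ i, (b i : K) ≠ 0 := fun i h => b.ne_zero i (Subtype.ext h)
  obtain ⟨⟨i0, h4, h5⟩, hmin⟩ := Pool.Agent.W349.WD.Sum.exists_min
    (fun i j : {i // ¬ P i ∧ gradV b v v' i ≠ 0} => ∃ a ∈ A,
      (b j.1 : K) * gradV b v v' j.1 = a * ((b i.1 : K) * gradV b v v' i.1)) (by
      rintro ⟨i, hi, hi'⟩ ⟨j, hj, hj'⟩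
      obtain ⟨l1, e1⟩ := hys (b i) (b i).2 (hb0 i)
      obtain ⟨l2, e2⟩ := hys (gradV b v v' i) (gradV b v v' i).2 fun h => hi' (Subtype.ext h)
      obtain ⟨l3, e3⟩ := hys (b j) (b j).2 (hb0 j)
      obtain ⟨l4, e4⟩ := hys (gradV b v v' j) (gradV b v v' j).2 fun h => hj' (Subtype.ext h)
      simp only [← e1, ← e2, ← e3, ← e4]
      rcases hc2 l1 l2 l3 l4 with h | h
      · left
        exact le_dvd hxA hx0 ((hmon l1).mul hx0 (hmon l2)) ((hmon l3).mul hx0 (hmon l4)) h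
      · right
        exact le_dvd hxA hx0 ((hmon l3).mul hx0 (hmon l4)) ((hmon l1).mul hx0 (hmon l2)) h) (by
      rintro i j l ⟨a, ha, h6⟩ ⟨a', ha', h7⟩
      exact ⟨a' * a, A.mul_mem ha' ha, by rw [h7, h6, mul_assoc]⟩)
  exact ⟨q, b, P, i0, h1, h2, h3, h4, h5, fun i hi hi' => hmin ⟨i, hi, hi'⟩⟩

/-- The exponents of the vectors. -/
noncomputable def zx (y : Fin r → K) (Z : Fin r → I → ℤ) (w : K) : I → ℤ := by
  classical exact if h : ∃ i, y i = w then Z h.choose else 0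

lemma zx_mon (hmon : ∀ j, IsMon A x (y j) (Z j)) (hys : ∀ v ∈ V, v ≠ 0 → ∃ i, y i = v) {w : V}
    (hw : w ≠ 0) : IsMon A x (w : K) (zx y Z (w : K)) := by
  have h : ∃ i, y i = (w : K) := hys w w.2 fun h => hw (Subtype.ext h)
  have h1 : zx y Z (w : K) = Z h.choose := by
    unfold zx
    rw [dif_pos h]
  rw [h1]
  have h2 := hmon h.choose
  rwa [h.choose_spec] at h2

lemma zx_idx (hys : ∀ v ∈ V, v ≠ 0 → ∃ i, y i = v) {w : V} (hw : w ≠ 0) :
    ∃ i, y i = (w : K) ∧ zx y Z (w : K) = Z i := by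
  have h : ∃ i, y i = (w : K) := hys w w.2 fun h => hw (Subtype.ext h)
  refine ⟨h.choose, h.choose_spec, ?_⟩
  unfold zx
  rw [dif_pos h]

/-- The exponents of the minimal component are independent of the chart. -/
theorem indep_chart {A' : Subalgebra k K} {x' : I → K} (hxA : ∀ i, x i ∈ A) (hx0 : ∀ i, x i ≠ 0)
    (hmon : ∀ j, IsMon A x (y j) (Z j))
    (hc : ∀ i j, LeN A x (Z i) (Z j) ∨ LeN A x (Z j) (Z i))
    (hxA' : ∀ i, x' i ∈ A') (hx0' : ∀ i, x' i ≠ 0)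
    (hmon' : ∀ j, IsMon A' x' (y j) (Z j))
    (hc' : ∀ i j, LeN A' x' (Z i) (Z j) ∨ LeN A' x' (Z j) (Z i))
    (hc2' : ∀ i j i' j', LeN A' x' (Z i + Z j) (Z i' + Z j') ∨
      LeN A' x' (Z i' + Z j') (Z i + Z j))
    (hys : ∀ v ∈ V, v ≠ 0 → ∃ i, y i = v) {v v' : Fin s → V} {q q' : ℕ}
    {b : Basis (Fin q) k₀ V} {P : Fin q → Prop} {i0 : Fin q} (h : ChartData p A V v v' b P i0)
    {b' : Basis (Fin q') k₀ V} {P' : Fin q' → Prop} {i0' : Fin q'}
    (h' : ChartData p A' V v v' b' P' i0') {a : I} (ha : (x a)⁻¹ ∉ A) (ha' : (x' a)⁻¹ ∉ A') :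
    (zx y Z (b' i0' : K) + zx y Z (gradV b' v v' i0' : K)) a ≤
      (zx y Z (b i0 : K) + zx y Z (gradV b v v' i0 : K)) a := by
  have hD' := dvA_Dv A' (tot_of hxA' hx0' hmon' hc' hys)
  have h1 := grad_basis b v v' b' i0
  obtain ⟨i', h2, h3, h4⟩ := hD'.exists_dv (fun i' => b.repr (b' i') i0)
    (fun i' => gradV b' v v' i') (by rw [← h1]; exact h.ne)
  rw [← h1] at h4
  have hP' : ¬ P' i' := fun hP => h2 (h.np _ (h'.pw i' hP) i0 h.ni)
  -- the singles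
  obtain ⟨l1, e1, f1⟩ := zx_idx (Z := Z) hys (b.ne_zero i0)
  obtain ⟨l2, e2, f2⟩ := zx_idx (Z := Z) hys h.ne
  obtain ⟨l3, e3, f3⟩ := zx_idx (Z := Z) hys (b'.ne_zero i')
  obtain ⟨l4, e4, f4⟩ := zx_idx (Z := Z) hys h3
  obtain ⟨l5, e5, f5⟩ := zx_idx (Z := Z) hys (b'.ne_zero i0')
  obtain ⟨l6, e6, f6⟩ := zx_idx (Z := Z) hys h'.ne
  have h5 : LeN A' x' (Z l4) (Z l2) := by
    refine dvd_le hxA' hx0' (hmon' l4) (hmon' l2) (hc' l4 l2) ?_
    rw [e4, e2]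
    exact h4
  have h6 : LeN A x (Z l3) (Z l1) := by
    refine dvd_le hxA hx0 (hmon l3) (hmon l1) (hc l3 l1) ?_
    rw [e3, e1]
    exact h.ad _ _ h2
  have h7 : LeN A' x' (Z l5 + Z l6) (Z l3 + Z l4) := by
    refine dvd_le hxA' hx0' ((hmon' l5).mul hx0' (hmon' l6)) ((hmon' l3).mul hx0' (hmon' l4))
      (hc2' l5 l6 l3 l4) ?_
    rw [e3, e4, e5, e6]
    exact h'.min i' hP' h3
  rw [f1, f2, f5, f6]
  have h8 := (h5 a).resolve_right ha'
  have h9 := (h6 a).resolve_right ha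
  have h10 := (h7 a).resolve_right ha'
  rw [Pi.add_apply, Pi.add_apply] at h10 ⊢
  omega

end chart

end Pool.Agent.Helper50.Quad
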