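import Pool.Agent.Helper50.Quad.Norm

/-!
# The logarithmic vector of a sum of products
-/

set_option autoImplicit false
set_option linter.unusedVariables false
set_option linter.unusedSectionVars false

universe u

open Finsupp Module Pool.Agent.W558 Pool.Agent.W177.WD Pool.Agent.TH214 Pool.Agent.TH214.V
  Pool.Agent.Helper50.Add

namespace Pool.Agent.Helper50.Quad

section dir

variable {r : ℕ} {B : Type} [Fintype B] [DecidableEq B]
  {k₀ : Type*} {k K κ : Type u} [Field k₀] [Finite k₀] [Field k] [Field K] [Field κ] [Algebra k₀ k]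
  [Algebra k K] [Algebra k₀ K] [IsScalarTower k₀ k K] [Algebra k κ] {p : ℕ} [Fact p.Prime]
  [CharP k p]

lemma biF_der_zero {J : Type} [Fintype J] {m m' : J → ℤ} (h : m ≠ m') (l : J → ℤ) (z : J → κ)
    (hz : ∀ j, z j ≠ 0) (hv : vl (biF k m m') l z = 0) (a : J → κ)
    (ha : ∑ j, (m j : κ) * a j = ∑ j, (m' j : κ) * a j) : der (biF k m m') l z a = 0 := by
  classical
  obtain ⟨h1, h2⟩ := biF_zero h l z hz hv
  unfold der
  rw [biF_face h, Finset.sum_filter, Finset.sum_pair h, biF_left h, biF_right h,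
    if_pos ⟨le_refl _, h1.le⟩, if_pos ⟨h1.ge, le_refl _⟩, map_one, map_neg, map_one, one_mul,
    neg_mul, one_mul, h2, ha]
  ring

/-- The direction of a coordinate is tangent to the equations. -/
theorem dir_tan {g : Fin r → K} (w : B ⊕ Fin r → ℤ) (z : B ⊕ Fin r → κ) (hz : ∀ j, z j ≠ 0)
    (hv : ∀ e, vl (Gs (k₀ := k₀) (k := k) p B g e) w z = 0) (c0 : Fin r → k₀)
    (hc0 : ∀ c : Fin r →₀ k₀, linearCombination k₀ g c = 0 → ∑ i ∈ c.support, c i * c0 i = 0)
    (hpw : ∀ i j, g j = g i ^ p → c0 j = 0) (L : ℤ)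
    (hL : ∀ j, c0 j ≠ 0 → w (Sum.inr j) ≤ L) (α : Fin r → κ)
    (hα : ∀ j, z (Sum.inr j) * α j =
      if w (Sum.inr j) = L then algebraMap k κ (algebraMap k₀ k (c0 j)) else 0)
    (e : Sg p (k₀ := k₀) g) :
    der (Gs (k₀ := k₀) (k := k) p B g e) w z (dirE α) = 0 := by
  classical
  have hp : p.Prime := Fact.out
  rcases e with ⟨c, hc⟩ | ⟨⟨i, j⟩, hij⟩
  · have h1 := linF_der (k := k) (Function.Embedding.inr : Fin r ↪ B ⊕ Fin r) c w z (dirE α)
    refine h1.trans ?_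
    have h2 : ∀ i, z ((Function.Embedding.inr : Fin r ↪ B ⊕ Fin r) i) *
        dirE α ((Function.Embedding.inr : Fin r ↪ B ⊕ Fin r) i) =
        if w (Sum.inr i) = L then algebraMap k κ (algebraMap k₀ k (c0 i)) else 0 := hα
    simp only [h2]
    by_cases hex : ∃ i ∈ c.support, (∀ i' ∈ c.support, w (Sum.inr i) ≤ w (Sum.inr i')) ∧
        w (Sum.inr i) = L
    · obtain ⟨i0, hi0, hmin, hiL⟩ := hex
      have h3 : ∀ i ∈ c.support, L ≤ w (Sum.inr i) := fun i hi => hiL ▸ hmin i hi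
      rw [Finset.sum_filter]
      refine (Finset.sum_congr rfl (g := fun i => algebraMap k κ (algebraMap k₀ k (c i * c0 i)))
        fun i hi => ?_).trans (by rw [← map_sum, ← map_sum, hc0 c hc, map_zero, map_zero])
      rw [map_mul, map_mul]
      rcases (h3 i hi).lt_or_eq with hlt | heq
      · have h5 : c0 i = 0 := by
          by_contra h5
          exact absurd (hL i h5) (not_le.2 hlt)
        rw [h5, map_zero, map_zero, ite_self, mul_zero, ite_self]
      · rw [if_pos heq.symm, if_pos]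
        intro i' hi'
        change w (Sum.inr i) ≤ w (Sum.inr i')
        rw [← heq]
        exact h3 i' hi'
    · push Not at hex
      refine Finset.sum_eq_zero fun i hi => ?_
      obtain ⟨hi1, hi2⟩ := (@Finset.mem_filter _ _ (_) _ _).1 hi
      rw [if_neg (hex i hi1 hi2), mul_zero]
  · have hcκ : CharP κ p := charP_of_injective_algebraMap (algebraMap k κ).injective p
    refine biF_der_zero (ne_bs hp i j) w z hz (hv (Sum.inr ⟨(i, j), hij⟩)) _ ?_
    rw [sum_single', sum_single']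
    have h8 : (((p : ℕ) : ℤ) : κ) = 0 := by
      rw [Int.cast_natCast]
      exact CharP.cast_eq_zero κ p
    rw [h8, zero_mul, Int.cast_one, one_mul]
    have h9 : z (Sum.inr j) * α j = 0 := by
      rw [hα j, hpw i j hij, map_zero, map_zero, ite_self]
    exact (mul_eq_zero.1 h9).resolve_left (hz _)

end dir

section vec

variable {p : ℕ} [Fact p.Prime] {k₀ : Type*} {k K : Type u} [Field k₀] [Finite k₀] [CharP k₀ p]
  [Field k] [Field K] [CharP K p] [Algebra k₀ k]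
  [Algebra k K] [Algebra k₀ K] [IsScalarTower k₀ k K] {V : Submodule k₀ K} {I : Type}
  [Fintype I] {r s : ℕ} {y : Fin r → K} {A : Subalgebra k K} {x : I → K} {Z : Fin r → I → ℤ}
  {v v' : Fin s → V} {q : ℕ} {b : Basis (Fin q) k₀ V} {P : Fin q → Prop} {i0 : Fin q}

/-- The terms are multiples of the minimal product. -/
lemma term_dvd (h : ChartData p A V v v' b P i0) {i j : Fin q} (hi : ¬ P i)
    (hij : b.repr (gradV b v v' i) j ≠ 0) :
    ∃ a ∈ A, (b i : K) * b j = a * ((b i0 : K) * gradV b v v' i0) := by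
  have h1 : gradV b v v' i ≠ 0 := by
    intro h0
    rw [h0] at hij
    simp at hij
  obtain ⟨a, ha, h2⟩ := h.ad _ _ hij
  obtain ⟨a', ha', h3⟩ := h.min i hi h1
  refine ⟨a * a', A.mul_mem ha ha', ?_⟩
  rw [h2]
  calc (b i : K) * (a * (gradV b v v' i : K)) = a * ((b i : K) * gradV b v v' i) := by ring
    _ = _ := by rw [h3]; ring

variable {n : I → ℤ}

/-- The minimal product divided by the monomial. -/
lemma min_unit (hxA : ∀ i, x i ∈ A) (hx0 : ∀ i, x i ≠ 0) (hmon : ∀ j, IsMon A x (y j) (Z j))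
    (hys : ∀ v ∈ V, v ≠ 0 → ∃ i, y i = v) (h : ChartData p A V v v' b P i0)
    (hn : ∀ a, n a = (zx y Z (b i0 : K) + zx y Z (gradV b v v' i0 : K)) a ∨ (x a)⁻¹ ∈ A) :
    ((b i0 : K) * gradV b v v' i0) * ∏ i, x i ^ (-n i) ≠ 0 ∧
    ((b i0 : K) * gradV b v v' i0) * ∏ i, x i ^ (-n i) ∈ A ∧
    (((b i0 : K) * gradV b v v' i0) * ∏ i, x i ^ (-n i))⁻¹ ∈ A :=
  unit_of hxA hx0 ((zx_mon hmon hys (b.ne_zero i0)).mul hx0 (zx_mon hmon hys h.ne))
    fun i => (hn i).imp_left Eq.symm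

lemma term_mem (hxA : ∀ i, x i ∈ A) (hx0 : ∀ i, x i ≠ 0) (hmon : ∀ j, IsMon A x (y j) (Z j))
    (hys : ∀ v ∈ V, v ≠ 0 → ∃ i, y i = v) (h : ChartData p A V v v' b P i0)
    (hn : ∀ a, n a = (zx y Z (b i0 : K) + zx y Z (gradV b v v' i0 : K)) a ∨ (x a)⁻¹ ∈ A)
    {i j : Fin q} (hi : ¬ P i) (hij : b.repr (gradV b v v' i) j ≠ 0) :
    (b i : K) * b j * ∏ i, x i ^ (-n i) ∈ A := by
  obtain ⟨a, ha, h1⟩ := term_dvd h hi hij
  rw [h1, mul_assoc]
  exact A.mul_mem ha (min_unit hxA hx0 hmon hys h hn).2.1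

lemma term_le (hxA : ∀ i, x i ∈ A) (hx0 : ∀ i, x i ≠ 0) (hmon : ∀ j, IsMon A x (y j) (Z j))
    (hc2 : ∀ i j i' j', LeN A x (Z i + Z j) (Z i' + Z j') ∨ LeN A x (Z i' + Z j') (Z i + Z j))
    (hys : ∀ v ∈ V, v ≠ 0 → ∃ i, y i = v) (h : ChartData p A V v v' b P i0)
    (hn : ∀ a, n a = (zx y Z (b i0 : K) + zx y Z (gradV b v v' i0 : K)) a ∨ (x a)⁻¹ ∈ A)
    {i j : Fin q} (hi : ¬ P i) (hij : b.repr (gradV b v v' i) j ≠ 0) {l l' : Fin r}
    (hl : y l = (b i : K)) (hl' : y l' = (b j : K)) : LeN A x n (Z l + Z l') := by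
  obtain ⟨l1, e1, f1⟩ := zx_idx (Z := Z) hys (b.ne_zero i0)
  obtain ⟨l2, e2, f2⟩ := zx_idx (Z := Z) hys h.ne
  have h1 : LeN A x (Z l1 + Z l2) (Z l + Z l') := by
    refine dvd_le hxA hx0 ((hmon l1).mul hx0 (hmon l2)) ((hmon l).mul hx0 (hmon l'))
      (hc2 l1 l2 l l') ?_
    rw [e1, e2, hl, hl']
    exact term_dvd h hi hij
  intro a
  rcases hn a with h2 | h2
  · rw [f1, f2] at h2
    rw [h2]
    exact h1 a
  · exact Or.inr h2

variable {κ : Type u} [Field κ] [Algebra k κ] {φ : A →ₐ[k] κ}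

/-- The remaining part lies in the ring, and its differential does not vanish. -/
theorem point_vec (hxA : ∀ i, x i ∈ A) (hx0 : ∀ i, x i ≠ 0) (hmon : ∀ j, IsMon A x (y j) (Z j))
    (hc2 : ∀ i j i' j', LeN A x (Z i + Z j) (Z i' + Z j') ∨ LeN A x (Z i' + Z j') (Z i + Z j))
    (hys : ∀ v ∈ V, v ≠ 0 → ∃ i, y i = v) (h : ChartData p A V v v' b P i0)
    (hn : ∀ a, n a = (zx y Z (b i0 : K) + zx y Z (gradV b v v' i0 : K)) a ∨ (x a)⁻¹ ∈ A)
    (Q : Fin q → Fin q → k₀)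
    (hQ : ∀ i j, Q i j ≠ 0 → (¬ P i ∧ b.repr (gradV b v v' i) j ≠ 0) ∨
        (¬ P j ∧ b.repr (gradV b v v' j) i ≠ 0))
    (hQ2 : ∀ i, ¬ P i → ∀ j, Q i j + Q j i = b.repr (gradV b v v' i) j) :
    (∑ i, ∑ j, Q i j • ((b i : K) * b j)) * ∏ i, x i ^ (-n i) ∈ A ∧
    ∀ (V' : LT φ x) (l : Fin q → Fin r), (∀ i, y (l i) = (b i : K)) → ∀ (α : Fin q → κ),
      (∀ i, LGF V' (Z (l i)) (y (l i)) (α i)) → α i0 ≠ 0 → (∀ i, i ≠ i0 → α i = 0) →
      ∀ hh : (∑ i, ∑ j, Q i j • ((b i : K) * b j)) * ∏ i, x i ^ (-n i) ∈ A, om V' n hh ≠ 0 := by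
  classical
  let X : K := ∏ i, x i ^ (-n i)
  let u : Fin q × Fin q → K := fun ij => (b ij.1 : K) * b ij.2 * X
  have hmem : ∀ i j, Q i j ≠ 0 → u (i, j) ∈ A := by
    intro i j hij
    rcases hQ i j hij with ⟨h1, h2⟩ | ⟨h1, h2⟩
    · exact term_mem hxA hx0 hmon hys h hn h1 h2
    · change (b i : K) * b j * X ∈ A
      rw [mul_comm (b i : K)]
      exact term_mem hxA hx0 hmon hys h hn h1 h2
  let S : Finset (Fin q × Fin q) := Finset.univ.filter fun ij => Q ij.1 ij.2 ≠ 0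
  have hS : ∀ m ∈ S, u m ∈ A := fun m hm => hmem m.1 m.2 (Finset.mem_filter.1 hm).2
  have hsum : (∑ i, ∑ j, Q i j • ((b i : K) * b j)) * X =
      ∑ m ∈ S, algebraMap k₀ k (Q m.1 m.2) • u m := by
    have h1 : ∑ m ∈ S, algebraMap k₀ k (Q m.1 m.2) • u m =
        ∑ m : Fin q × Fin q, algebraMap k₀ k (Q m.1 m.2) • u m := by
      refine Finset.sum_filter_of_ne fun m _ hm h0 => hm ?_
      rw [h0, map_zero, zero_smul]
    rw [h1, Fintype.sum_prod_type, Finset.sum_mul]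
    refine Finset.sum_congr rfl fun i _ => ?_
    rw [Finset.sum_mul]
    refine Finset.sum_congr rfl fun j _ => ?_
    rw [algebraMap_smul, smul_mul_assoc]
  have hmemA : (∑ i, ∑ j, Q i j • ((b i : K) * b j)) * X ∈ A := by
    rw [hsum]
    exact A.sum_mem fun m hm => A.smul_mem (hS m hm) _
  refine ⟨hmemA, ?_⟩
  intro V' l hl α hα hα0 hα1 hh
  let Φ : K → κ := fun z => if hz : z ∈ A then φ ⟨z, hz⟩ else 0
  have hΦ : ∀ z (hz : z ∈ A), Φ z = φ ⟨z, hz⟩ := fun z hz => dif_pos hz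
  let F : Fin q → Fin q → κ := fun i j => Φ (u (i, j))
  have hF : ∀ i j, F i j = F j i := by
    intro i j
    change Φ ((b i : K) * b j * X) = Φ ((b j : K) * b i * X)
    rw [mul_comm (b i : K)]
  have hh' : ∑ m ∈ S, algebraMap k₀ k (Q m.1 m.2) • u m ∈ A := by
    rw [← hsum]
    exact hh
  have hom : om V' n hh = om V' n hh' := by
    congr 1
  have h1 : om V' n hh' = ∑ m ∈ S, algebraMap k κ (algebraMap k₀ k (Q m.1 m.2)) *
      (F m.1 m.2 * (α m.1 + α m.2)) := by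
    refine om_smul_sum V' n S _ u hS _ ?_ hh'
    rintro ⟨i, j⟩ hm
    have hQij : Q i j ≠ 0 := (Finset.mem_filter.1 hm).2
    have h2 : LGF V' (Z (l i) + Z (l j)) ((b i : K) * b j) (α i + α j) := by
      have h3 := (hα i).mul hx0 (hα j)
      rw [hl, hl] at h3
      exact h3
    have h3 : LeN A x n (Z (l i) + Z (l j)) := by
      rcases hQ i j hQij with ⟨h4, h5⟩ | ⟨h4, h5⟩
      · exact term_le hxA hx0 hmon hc2 hys h hn h4 h5 (hl i) (hl j)
      · rw [add_comm]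
        exact term_le hxA hx0 hmon hc2 hys h hn h4 h5 (hl j) (hl i)
    refine (om_mon hx0 hxA h2 n h3 (hS _ hm)).trans ?_
    change _ = Φ (u (i, j)) * (α i + α j)
    rw [hΦ _ (hS _ hm)]
  have h2 : ∑ m ∈ S, algebraMap k κ (algebraMap k₀ k (Q m.1 m.2)) *
      (F m.1 m.2 * (α m.1 + α m.2)) = ∑ i, ∑ j, algebraMap k κ (algebraMap k₀ k (Q i j)) *
      (F i j * (α i + α j)) := by
    rw [← Fintype.sum_prod_type (f := fun m : Fin q × Fin q =>
      algebraMap k κ (algebraMap k₀ k (Q m.1 m.2)) * (F m.1 m.2 * (α m.1 + α m.2)))]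
    refine Finset.sum_filter_of_ne fun m _ hm h0 => hm ?_
    rw [h0, map_zero, map_zero, zero_mul]
  have h3 := sum_dir (fun i j => algebraMap k κ (algebraMap k₀ k (Q i j))) F hF i0 (α i0) α rfl hα1
  have h4 : ∀ j, algebraMap k κ (algebraMap k₀ k (Q i0 j)) +
      algebraMap k κ (algebraMap k₀ k (Q j i0)) =
        algebraMap k κ (algebraMap k₀ k (b.repr (gradV b v v' i0) j)) := by
    intro j
    rw [← hQ2 i0 h.ni j, map_add, map_add]
  simp only [h4] at h3
  -- the value at the minimal product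
  let S' : Finset (Fin q) := Finset.univ.filter fun j => b.repr (gradV b v v' i0) j ≠ 0
  obtain ⟨h5, h6⟩ := phi_sum (φ := φ) S' (fun j => algebraMap k₀ k (b.repr (gradV b v v' i0) j))
    (fun j => u (i0, j)) (fun j => F i0 j) (by
      intro j hj
      have h5 : u (i0, j) ∈ A := term_mem hxA hx0 hmon hys h hn h.ni (Finset.mem_filter.1 hj).2
      exact ⟨h5, (hΦ _ h5).symm⟩)
  have h7 : ∑ j ∈ S', algebraMap k κ (algebraMap k₀ k (b.repr (gradV b v v' i0) j)) * F i0 j =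
      ∑ j, algebraMap k κ (algebraMap k₀ k (b.repr (gradV b v v' i0) j)) * F i0 j := by
    refine Finset.sum_filter_of_ne fun j _ hj h0 => hj ?_
    rw [h0, map_zero, map_zero, zero_mul]
  have h8 : ∑ j ∈ S', algebraMap k₀ k (b.repr (gradV b v v' i0) j) • u (i0, j) =
      ((b i0 : K) * gradV b v v' i0) * X := by
    have h9 : ∑ j ∈ S', algebraMap k₀ k (b.repr (gradV b v v' i0) j) • u (i0, j) =
        ∑ j, algebraMap k₀ k (b.repr (gradV b v v' i0) j) • u (i0, j) := by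
      refine Finset.sum_filter_of_ne fun m _ hm h0 => hm ?_
      rw [h0, map_zero, zero_smul]
    have h10 : (gradV b v v' i0 : K) = ∑ j, b.repr (gradV b v v' i0) j • (b j : K) := by
      have h2 := congrArg V.subtype (b.sum_repr (gradV b v v' i0))
      rw [map_sum] at h2
      have h3 : V.subtype (gradV b v v' i0) = (gradV b v v' i0 : K) := rfl
      rw [h3] at h2
      rw [← h2]
      refine Finset.sum_congr rfl fun i _ => ?_
      rw [map_smul]
      rfl
    rw [h9, h10, Finset.mul_sum, Finset.sum_mul]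
    refine Finset.sum_congr rfl fun j _ => ?_
    rw [algebraMap_smul, mul_smul_comm, smul_mul_assoc]
  obtain ⟨hu0, hu1, hu2⟩ := min_unit hxA hx0 hmon hys h hn
  have h9 : φ ⟨_, hu1⟩ ≠ 0 := by
    intro h0
    have h10 : φ ⟨_, hu1⟩ * φ ⟨_, hu2⟩ = 1 := by
      rw [← map_mul, ← map_one φ]
      congr 1
      exact Subtype.ext (mul_inv_cancel₀ hu0)
    rw [h0, zero_mul] at h10
    exact zero_ne_one h10
  have h10 : φ ⟨_, h5⟩ = φ ⟨_, hu1⟩ := by
    congr 1
    exact Subtype.ext h8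
  rw [hom, h1, h2, h3, ← h7, ← h6, h10]
  exact mul_ne_zero hα0 h9

end vec

end Pool.Agent.Helper50.Quad
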